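import Pool.Agent.Lib.MP_d56329_co.Projective

/-!
# Inscribing a polytope from a Lorentz form

A symmetric bilinear form on `E × ℝ` that is positive definite on the kernel of a functional which
is positive on the cone over a polytope `P`, and which vanishes at all vertices `(x, 1)` of that
cone, produces a projective image of `P` inscribed in a sphere.
-/

set_option autoImplicit false

open Set Module

namespace Pool.Agent.Lib.MP_d56329_co

/-- A positive definite symmetric form on a finite dimensional space is Euclidean. -/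
theorem exists_euclidean {W : Type*} [AddCommGroup W] [Module ℝ W] [FiniteDimensional ℝ W]
    (B : W →ₗ[ℝ] W →ₗ[ℝ] ℝ) (hsymm : ∀ v w, B v w = B w v)
    (hpos : ∀ w, w ≠ 0 → 0 < B w w) (n : ℕ) (hn : finrank ℝ W = n) :
    ∃ Φ : W ≃ₗ[ℝ] EuclideanSpace ℝ (Fin n), ∀ v w, inner ℝ (Φ v) (Φ w) = B v w := by
  subst hn
  let core : InnerProductSpace.Core ℝ W :=
    { inner := fun v w => B v w
      conj_inner_symm := fun v w => by simp [hsymm v w]
      re_inner_nonneg := fun v => by
        by_cases hv : v = 0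
        · simp [hv]
        · simpa using (hpos v hv).le
      add_left := fun u v w => by simp
      smul_left := fun u v r => by simp
      definite := fun v hv => by
        by_contra hne
        exact (hpos v hne).ne' hv }
  let i1 : NormedAddCommGroup W := core.toNormedAddCommGroup
  let i2 : InnerProductSpace ℝ W := InnerProductSpace.ofCore core.toCore
  let b := stdOrthonormalBasis ℝ W
  refine ⟨b.repr.toLinearEquiv, fun v w => ?_⟩
  have h1 : inner ℝ (b.repr v) (b.repr w) = inner ℝ v w := b.repr.inner_map_map v w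
  have h2 : inner ℝ v w = B v w := rfl
  rw [← h2, ← h1]
  rfl

/-- A polytope is the convex hull of its extreme points. -/
theorem convexHull_extremePoints_eq {E : Type*} [NormedAddCommGroup E] [NormedSpace ℝ E]
    {S : Set E} (hS : S.Finite) :
    convexHull ℝ ((convexHull ℝ S).extremePoints ℝ) = convexHull ℝ S := by
  have h1 : ((convexHull ℝ S).extremePoints ℝ).Finite :=
    hS.subset extremePoints_convexHull_subset
  have h2 := closure_convexHull_extremePoints (hS.isCompact_convexHull (𝕜 := ℝ))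
    (convex_convexHull ℝ S)
  rwa [(h1.isClosed_convexHull (𝕜 := ℝ)).closure_eq] at h2

/-- Euclidean space of dimension `d`. -/
abbrev Euc (d : ℕ) : Type := EuclideanSpace ℝ (Fin d)

theorem inscribe_of_form {d : ℕ} (S : Finset (Euc d)) (hne : S.Nonempty)
    (B : (Euc d × ℝ) →ₗ[ℝ] (Euc d × ℝ) →ₗ[ℝ] ℝ)
    (τ : (Euc d × ℝ) →ₗ[ℝ] ℝ)
    (hsymm : ∀ v w, B v w = B w v)
    (hpos : ∀ w, τ w = 0 → w ≠ 0 → 0 < B w w)
    (hτ : ∀ x ∈ convexHull ℝ (S : Set (Euc d)), 0 < τ (x, 1))
    (hiso : ∀ x ∈ (convexHull ℝ (S : Set (Euc d))).extremePoints ℝ,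
      B (x, 1) (x, 1) = 0) :
    ∃ T : Finset (Euc d), ∃ c : Euc d, ∃ r : ℝ,
      (T : Set (Euc d)) ⊆ Metric.sphere c r ∧
      ∃ e : Euc d → Euc d,
        Set.BijOn e
          ((convexHull ℝ (S : Set (Euc d))).extremePoints ℝ)
          ((convexHull ℝ (T : Set (Euc d))).extremePoints ℝ) ∧
        ∀ A ⊆ (convexHull ℝ (S : Set (Euc d))).extremePoints ℝ,
          (IsExposed ℝ (convexHull ℝ (S : Set (Euc d))) (convexHull ℝ A) ↔
            IsExposed ℝ (convexHull ℝ (T : Set (Euc d)))
              (convexHull ℝ (e '' A))) := by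
  classical
  set P : Set (Euc d) := convexHull ℝ (S : Set (Euc d)) with hP
  -- the hyperplane `ker τ`
  obtain ⟨x₀, hx₀⟩ : P.Nonempty := by
    rw [hP, convexHull_nonempty_iff]
    exact hne
  have hτ0 : τ ≠ 0 := by
    intro h
    have := hτ x₀ hx₀
    rw [h] at this
    simp at this
  have hrank : finrank ℝ (LinearMap.ker τ) = d := by
    have h1 := LinearMap.finrank_range_add_finrank_ker τ
    have h2 : finrank ℝ (LinearMap.range τ) = 1 := by
      rw [LinearMap.range_eq_top.mpr (LinearMap.surjective_of_ne_zero hτ0)]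
      simp
    have h3 : finrank ℝ (Euc d × ℝ) = d + 1 := by
      rw [Module.finrank_prod]
      simp
    omega
  obtain ⟨Φ, hΦ'⟩ := exists_euclidean (W := LinearMap.ker τ)
    (B.domRestrict₁₂ (LinearMap.ker τ) (LinearMap.ker τ))
    (fun v w => hsymm v w)
    (fun w hw => hpos w.1 w.2 (fun h => hw (Subtype.ext h))) d hrank
  have hΦ : ∀ v w : LinearMap.ker τ, inner ℝ (Φ v) (Φ w) = B v w := hΦ'
  -- the base point
  obtain ⟨v, hv⟩ : ∃ v, τ v = 1 := LinearMap.surjective_of_ne_zero hτ0 1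
  obtain ⟨u, hu⟩ : ∃ u : LinearMap.ker τ, ∀ w : LinearMap.ker τ, B u w = B v w := by
    let f : Euc d →ₗ[ℝ] ℝ := ((B v).domRestrict (LinearMap.ker τ)).comp (Φ.symm : Euc d →ₗ[ℝ] _)
    refine ⟨Φ.symm ((InnerProductSpace.toDual ℝ (Euc d)).symm
      (LinearMap.toContinuousLinearMap f)), fun w => ?_⟩
    rw [← hΦ, LinearEquiv.apply_symm_apply, InnerProductSpace.toDual_symm_apply]
    simp [f]
  let w₀ : Euc d × ℝ := v - u
  have hw₀ : τ w₀ = 1 := by
    have : τ (u : Euc d × ℝ) = 0 := u.2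
    simp [w₀, hv, this]
  have hw₀' : ∀ w, τ w = 0 → B w₀ w = 0 := by
    intro w hw
    have := hu ⟨w, hw⟩
    simp only [w₀, map_sub, LinearMap.sub_apply]
    simp only at this
    rw [this, sub_self]
  -- the projection onto `ker τ`
  let p : (Euc d × ℝ) →ₗ[ℝ] LinearMap.ker τ :=
    (LinearMap.id - τ.smulRight w₀).codRestrict (LinearMap.ker τ) (by
      intro w
      simp [hw₀])
  have hp : ∀ w, ((p w : LinearMap.ker τ) : Euc d × ℝ) = w - τ w • w₀ := fun w => rfl
  let Lm : (Euc d × ℝ) →ₗ[ℝ] (Euc d × ℝ) := ((Φ : _ →ₗ[ℝ] Euc d).comp p).prod τ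
  have hLm : Function.Injective Lm := by
    rw [← LinearMap.ker_eq_bot, LinearMap.ker_eq_bot']
    intro w hw
    have h1 : Φ (p w) = 0 := congrArg Prod.fst hw
    have h2 : τ w = 0 := congrArg Prod.snd hw
    have h3 : p w = 0 := by simpa using h1
    have h4 := hp w
    rw [h3, h2] at h4
    simpa using h4.symm
  let L : (Euc d × ℝ) ≃ₗ[ℝ] (Euc d × ℝ) := LinearEquiv.ofInjectiveEndo Lm hLm
  have hL : ∀ w, L w = (Φ (p w), τ w) := fun w => rfl
  have hht : ∀ x, ht L x = τ (x, 1) := fun x => rfl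
  have hPpos : ∀ x ∈ P, 0 < ht L x := fun x hx => by rw [hht]; exact hτ x hx
  have hfin : (P.extremePoints ℝ).Finite :=
    S.finite_toSet.subset extremePoints_convexHull_subset
  have hPext : convexHull ℝ (P.extremePoints ℝ) = P :=
    convexHull_extremePoints_eq S.finite_toSet
  have hT : convexHull ℝ ((hfin.image (pr L)).toFinset : Set (Euc d)) = pr L '' P := by
    rw [Finite.coe_toFinset, ← image_convexHull L (fun x hx => hPpos x hx.1), hPext]
  refine ⟨(hfin.image (pr L)).toFinset, 0, √(-(B w₀ w₀)), ?_, pr L, ?_, ?_⟩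
  · intro y hy
    simp only [Finite.coe_toFinset] at hy
    obtain ⟨x, hx, rfl⟩ := hy
    have hxP : x ∈ P := hx.1
    have h1 : ‖Φ (p (x, 1))‖ ^ 2 = -(τ (x, 1)) ^ 2 * B w₀ w₀ := by
      rw [← real_inner_self_eq_norm_sq, hΦ]
      have h2 : B (x, 1) (x, 1) = 0 := hiso x hx
      have h3 : ((x, (1 : ℝ)) : Euc d × ℝ) = (p (x, 1) : Euc d × ℝ) + τ (x, 1) • w₀ := by
        rw [hp]; simp
      have h4 : B w₀ (p (x, 1) : Euc d × ℝ) = 0 := hw₀' _ (p (x, 1)).2
      have h5 : B (p (x, 1) : Euc d × ℝ) w₀ = 0 := by rw [hsymm]; exact h4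
      have h6 : B (x, 1) (x, 1) = B ((p (x, 1) : Euc d × ℝ) + τ (x, 1) • w₀)
          ((p (x, 1) : Euc d × ℝ) + τ (x, 1) • w₀) := by rw [← h3]
      rw [h6] at h2
      simp only [map_add, map_smul, LinearMap.add_apply, LinearMap.smul_apply, smul_eq_mul,
        h4, h5] at h2
      linear_combination h2
    have h2 : 0 < τ (x, 1) := hτ x hxP
    have h3 : ‖pr L x‖ ^ 2 = -(B w₀ w₀) := by
      have : pr L x = (τ (x, 1))⁻¹ • Φ (p (x, 1)) := rfl
      rw [this, norm_smul, mul_pow, h1]
      simp only [norm_inv, Real.norm_eq_abs, inv_pow, sq_abs]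
      field_simp
    rw [mem_sphere_zero_iff_norm, ← h3, Real.sqrt_sq (norm_nonneg _)]
  · rw [hT, ← image_extremePoints_pr L hPpos]
    exact ((injOn_pr L hPpos).mono extremePoints_subset).bijOn_image
  · intro A hA
    rw [hT, ← image_convexHull L (fun x hx => hPpos x (hA hx).1)]
    refine exposed_iff L hPpos ?_
    exact convexHull_min (fun x hx => (hA hx).1) (convex_convexHull ℝ _)

end Pool.Agent.Lib.MP_d56329_co
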