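import Pool.Agent.Lib.MP_d56329_co.Euclid

/-!
# A full-dimensional polytope is cut out by its facets
-/

set_option autoImplicit false

open Set Module

namespace Pool.Agent.Lib.MP_d56329_co

/-- The facets of `convexHull ℝ S`. -/
def facets {d : ℕ} (S : Set (Euc d)) : Set (Set (Euc d)) :=
  {F : Set (Euc d) | IsExposed ℝ (convexHull ℝ S) F ∧ F.Nonempty ∧
    finrank ℝ (vectorSpan ℝ F) + 1 = d}

/-- An exposed face of a polytope is the convex hull of the generators it contains. -/
theorem exposed_eq_convexHull {E : Type*} [NormedAddCommGroup E] [NormedSpace ℝ E]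
    {S F : Set E} (hS : S.Finite)
    (hF : IsExposed ℝ (convexHull ℝ S) F) : F = convexHull ℝ (S ∩ F) := by
  have hc : IsCompact (convexHull ℝ S) := hS.isCompact_convexHull (𝕜 := ℝ)
  have hFc : IsCompact F := hF.isCompact hc
  have hFconv : Convex ℝ F := hF.convex (convex_convexHull ℝ S)
  have h1 : F.extremePoints ℝ ⊆ S ∩ F := by
    intro x hx
    refine ⟨?_, hx.1⟩
    have := hF.isExtreme.extremePoints_subset_extremePoints hx
    exact extremePoints_convexHull_subset this
  apply Subset.antisymm
  · have h2 : (S ∩ F).Finite := hS.subset inter_subset_left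
    have h3 : closure (convexHull ℝ (F.extremePoints ℝ)) ⊆ convexHull ℝ (S ∩ F) :=
      closure_minimal (convexHull_mono h1) (h2.isClosed_convexHull (𝕜 := ℝ))
    rwa [closure_convexHull_extremePoints hFc hFconv] at h3
  · exact convexHull_min inter_subset_right hFconv

theorem finite_facets {d : ℕ} {S : Set (Euc d)} (hS : S.Finite) : (facets S).Finite := by
  refine Set.Finite.of_finite_image (f := fun F => S ∩ F) ?_ ?_
  · exact (hS.powerset).subset (by rintro _ ⟨F, -, rfl⟩; exact inter_subset_left)
  · intro F hF G hG hFG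
    rw [exposed_eq_convexHull hS hF.1, exposed_eq_convexHull hS hG.1]
    simp only at hFG
    rw [hFG]

/-- A supporting hyperplane for each exposed face. -/
theorem exposed_support {E : Type*} [NormedAddCommGroup E] [NormedSpace ℝ E]
    {P F : Set E} (hF : IsExposed ℝ P F) (hne : F.Nonempty) :
    ∃ (l : StrongDual ℝ E) (b : ℝ), (∀ x ∈ P, l x ≤ b) ∧ F = {x ∈ P | l x = b} := by
  obtain ⟨l, hl⟩ := hF hne
  obtain ⟨x₀, hx₀⟩ := hne
  have hx₀' : x₀ ∈ {x ∈ P | ∀ y ∈ P, l y ≤ l x} := hl ▸ hx₀
  refine ⟨l, l x₀, fun x hx => hx₀'.2 x hx, ?_⟩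
  rw [hl]
  ext x
  constructor
  · rintro ⟨h1, h2⟩
    exact ⟨h1, le_antisymm (hx₀'.2 x h1) (h2 x₀ hx₀'.1)⟩
  · rintro ⟨h1, h2⟩
    refine ⟨h1, fun y hy => ?_⟩
    rw [h2]
    exact hx₀'.2 y hy

/-- A point of an open nonempty set avoiding finitely many proper affine subspaces. -/
theorem exists_generic {d : ℕ} {U : Set (Euc d)} (hU : IsOpen U) (hne : U.Nonempty)
    {κ : Type*} (s : Set κ) (hs : s.Finite) (A : κ → AffineSubspace ℝ (Euc d))
    (hA : ∀ k ∈ s, A k ≠ ⊤) : ∃ z ∈ U, ∀ k ∈ s, z ∉ A k := by
  by_contra hcon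
  push Not at hcon
  have hsub : U ⊆ ⋃ k ∈ s, (A k : Set (Euc d)) := by
    intro z hz
    obtain ⟨k, hk, hz'⟩ := hcon z hz
    exact mem_biUnion hk hz'
  have h0 : MeasureTheory.volume (⋃ k ∈ s, (A k : Set (Euc d))) = 0 := by
    rw [MeasureTheory.measure_biUnion_null_iff hs.countable]
    intro k hk
    exact MeasureTheory.Measure.addHaar_affineSubspace _ _ (hA k hk)
  have h1 : MeasureTheory.volume U = 0 := MeasureTheory.measure_mono_null hsub h0
  exact (hU.measure_pos MeasureTheory.volume hne).ne' h1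

theorem exists_violated_facet {d : ℕ} (S : Finset (Euc d))
    (hint : (interior (convexHull ℝ (S : Set (Euc d)))).Nonempty)
    (x : Euc d) (hx : x ∉ convexHull ℝ (S : Set (Euc d))) :
    ∃ F ∈ facets (S : Set (Euc d)), ∀ (l : StrongDual ℝ (Euc d)) (b : ℝ),
      (∀ y ∈ convexHull ℝ (S : Set (Euc d)), l y ≤ b) →
      F = {y ∈ convexHull ℝ (S : Set (Euc d)) | l y = b} → b < l x := by
  classical
  set P : Set (Euc d) := convexHull ℝ (S : Set (Euc d)) with hP
  have hPconv : Convex ℝ P := convex_convexHull ℝ _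
  have hPcomp : IsCompact P := S.finite_toSet.isCompact_convexHull (𝕜 := ℝ)
  -- generic interior point
  obtain ⟨z, hz, hzgen⟩ := exists_generic isOpen_interior hint
    {A : Set (Euc d) | A ⊆ S ∧ finrank ℝ (vectorSpan ℝ A) + 1 < d}
    (S.finite_toSet.powerset.subset (fun A hA => hA.1))
    (fun A => affineSpan ℝ (insert x A)) (by
      rintro A ⟨-, hA⟩ htop
      have h1 := finrank_vectorSpan_insert_le_set ℝ A x
      rw [← direction_affineSpan, htop, AffineSubspace.direction_top] at h1
      simp at h1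
      omega)
  -- the last point of the segment in `P`
  let γ : ℝ → Euc d := fun t => z + t • (x - z)
  have hγ : Continuous γ := by fun_prop
  let I : Set ℝ := Icc 0 1 ∩ γ ⁻¹' P
  have hIc : IsCompact I := isCompact_Icc.inter_right (hPcomp.isClosed.preimage hγ)
  have hIne : I.Nonempty := ⟨0, by simp, by simpa [γ] using interior_subset hz⟩
  obtain ⟨t, ht, htmax⟩ := hIc.exists_isGreatest hIne
  have ht1 : t < 1 := by
    rcases ht.1.2.lt_or_eq with h | h
    · exact h
    · exfalso
      apply hx
      have := ht.2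
      simp only [mem_preimage, γ, h, one_smul] at this
      simpa using this
  have ht0 : 0 ≤ t := ht.1.1
  set w : Euc d := γ t with hw
  have hwP : w ∈ P := ht.2
  have hwint : w ∉ interior P := by
    intro hwi
    have hnhds : γ ⁻¹' interior P ∈ nhds t :=
      hγ.continuousAt.preimage_mem_nhds (isOpen_interior.mem_nhds hwi)
    rw [Metric.mem_nhds_iff] at hnhds
    obtain ⟨ε, hε, hball⟩ := hnhds
    let t' := t + min (ε / 2) (1 - t)
    have hmin : 0 < min (ε / 2) (1 - t) := lt_min (by linarith) (by linarith)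
    have ht' : t' ∈ Metric.ball t ε := by
      rw [Metric.mem_ball, Real.dist_eq]
      have h2 : min (ε / 2) (1 - t) ≤ ε / 2 := min_le_left _ _
      simp only [t', add_sub_cancel_left]
      rw [abs_of_pos hmin]
      linarith
    have h4 : γ t' ∈ P := interior_subset (s := P) (hball ht')
    have h3 : t' ∈ I := by
      refine ⟨⟨by simp only [t']; linarith, ?_⟩, h4⟩
      have h2 : min (ε / 2) (1 - t) ≤ 1 - t := min_le_right _ _
      simp only [t']
      linarith
    have := htmax h3
    simp only [t'] at this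
    linarith
  -- supporting functional at `w`
  obtain ⟨f, hf⟩ := geometric_hahn_banach_open_point hPconv.interior isOpen_interior hwint
  have hfP : ∀ y ∈ P, f y ≤ f w := by
    intro y hy
    have hcl : P ⊆ closure (interior P) := by
      rw [hPconv.closure_interior_eq_closure_of_nonempty_interior hint]
      exact subset_closure
    have h1 : closure (interior P) ⊆ {y | f y ≤ f w} :=
      closure_minimal (fun y hy => (hf y hy).le) (isClosed_le f.continuous continuous_const)
    exact h1 (hcl hy)
  let F : Set (Euc d) := {y ∈ P | f y = f w}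
  have hFexp : IsExposed ℝ P F := by
    intro _
    refine ⟨f, ?_⟩
    ext y
    constructor
    · rintro ⟨h1, h2⟩
      exact ⟨h1, fun z hz => by rw [h2]; exact hfP z hz⟩
    · rintro ⟨h1, h2⟩
      exact ⟨h1, le_antisymm (hfP y h1) (h2 w hwP)⟩
  have hwF : w ∈ F := ⟨hwP, rfl⟩
  have hFhull : F = convexHull ℝ ((S : Set (Euc d)) ∩ F) :=
    exposed_eq_convexHull S.finite_toSet hFexp
  have hspan : vectorSpan ℝ F = vectorSpan ℝ ((S : Set (Euc d)) ∩ F) := by
    conv_lhs => rw [hFhull]
    rw [← direction_affineSpan, affineSpan_convexHull, direction_affineSpan]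
  have hfz : f z < f w := hf z hz
  have hwx : w ≠ x := fun h => hx (h ▸ hwP)
  -- dimension at least `d - 1`
  have hge : ¬ (finrank ℝ (vectorSpan ℝ ((S : Set (Euc d)) ∩ F)) + 1 < d) := by
    intro hlt
    refine hzgen ((S : Set (Euc d)) ∩ F) ⟨inter_subset_left, hlt⟩ ?_
    have hw' : w ∈ affineSpan ℝ (insert x ((S : Set (Euc d)) ∩ F)) := by
      have h1 : w ∈ convexHull ℝ ((S : Set (Euc d)) ∩ F) := hFhull ▸ hwF
      exact affineSpan_mono ℝ (subset_insert _ _) (convexHull_subset_affineSpan _ h1)
    have hx' : x ∈ affineSpan ℝ (insert x ((S : Set (Euc d)) ∩ F)) :=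
      subset_affineSpan ℝ _ (mem_insert _ _)
    have h2 := AffineMap.lineMap_mem (-(t / (1 - t))) hw' hx'
    have h3 : AffineMap.lineMap w x (-(t / (1 - t))) = z := by
      rw [AffineMap.lineMap_apply_module, hw]
      simp only [γ]
      have h4 : (1 - t) ≠ 0 := by linarith
      have h5 : (1 - -(t / (1 - t))) = 1 / (1 - t) := by field_simp; ring
      rw [h5]
      ext i
      simp only [PiLp.add_apply, PiLp.smul_apply, PiLp.sub_apply, smul_eq_mul]
      field_simp
      ring
    rwa [h3] at h2
  -- dimension at most `d - 1`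
  have hle : finrank ℝ (vectorSpan ℝ F) + 1 ≤ d := by
    have hf0 : (f : Euc d →ₗ[ℝ] ℝ) ≠ 0 := by
      intro h
      have h1 : f z = 0 := by
        have := congrArg (fun g : Euc d →ₗ[ℝ] ℝ => g z) h
        simpa using this
      have h2 : f w = 0 := by
        have := congrArg (fun g : Euc d →ₗ[ℝ] ℝ => g w) h
        simpa using this
      linarith
    have h1 : vectorSpan ℝ F ≤ LinearMap.ker (f : Euc d →ₗ[ℝ] ℝ) := by
      rw [vectorSpan_def, Submodule.span_le]
      rintro _ ⟨a, ha, b, hb, rfl⟩
      simp only [vsub_eq_sub, SetLike.mem_coe, LinearMap.mem_ker, map_sub]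
      have ha' : f a = f w := ha.2
      have hb' : f b = f w := hb.2
      simp [ha', hb']
    have h2 := Submodule.finrank_mono h1
    have h3 := LinearMap.finrank_range_add_finrank_ker (f : Euc d →ₗ[ℝ] ℝ)
    have h4 : finrank ℝ (LinearMap.range (f : Euc d →ₗ[ℝ] ℝ)) = 1 := by
      rw [LinearMap.range_eq_top.mpr (LinearMap.surjective_of_ne_zero hf0)]
      simp
    have h5 : finrank ℝ (Euc d) = d := by simp
    omega
  refine ⟨F, ⟨hFexp, ⟨w, hwF⟩, ?_⟩, ?_⟩
  · rw [← hspan] at hge
    omega
  · intro l b hlb hF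
    have h1 : l w = b := by
      have : w ∈ {y ∈ P | l y = b} := hF ▸ hwF
      exact this.2
    have h2 : l z < b := by
      refine lt_of_le_of_ne (hlb z (interior_subset hz)) ?_
      intro h
      have h3 : z ∈ F := by
        rw [hF]
        exact ⟨interior_subset hz, h⟩
      exact hfz.ne h3.2
    have h3 : l w = l z + t * (l x - l z) := by
      rw [hw]
      simp [γ]
    by_contra hcon
    push Not at hcon
    nlinarith

theorem exists_ineqs {d : ℕ} (S : Finset (Euc d))
    (hint : (interior (convexHull ℝ (S : Set (Euc d)))).Nonempty)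
    (hfac : (facets (S : Set (Euc d))).ncard ≤ d + 3) :
    ∃ (ι : Type) (_ : Fintype ι) (l : ι → (Euc d →ₗ[ℝ] ℝ)) (b : ι → ℝ),
      Fintype.card ι ≤ d + 3 ∧ convexHull ℝ (S : Set (Euc d)) = {x | ∀ i, l i x ≤ b i} := by
  classical
  have hfin : (facets (S : Set (Euc d))).Finite := finite_facets S.finite_toSet
  have : Fintype (facets (S : Set (Euc d))) := hfin.fintype
  choose l b hlb hF using fun F : facets (S : Set (Euc d)) =>
    exposed_support F.2.1 F.2.2.1
  have key : convexHull ℝ (S : Set (Euc d)) = {x | ∀ F, l F x ≤ b F} := by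
    ext x
    constructor
    · intro hx F
      exact hlb F x hx
    · intro hx
      by_contra hcon
      obtain ⟨F, hF1, hF2⟩ := exists_violated_facet S hint x hcon
      have := hF2 (l ⟨F, hF1⟩) (b ⟨F, hF1⟩) (hlb ⟨F, hF1⟩) (hF ⟨F, hF1⟩)
      exact absurd (hx ⟨F, hF1⟩) (not_le.mpr this)
  have hcard : Fintype.card (facets (S : Set (Euc d))) ≤ d + 3 := by
    rwa [← Nat.card_eq_fintype_card, Nat.card_coe_set_eq]
  let e : facets (S : Set (Euc d)) ≃ Fin (Fintype.card (facets (S : Set (Euc d)))) :=
    Fintype.equivFin _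
  refine ⟨Fin (Fintype.card (facets (S : Set (Euc d)))), inferInstance,
    fun i => (l (e.symm i) : Euc d →ₗ[ℝ] ℝ), fun i => b (e.symm i), by simpa using hcard, ?_⟩
  rw [key]
  ext x
  constructor
  · intro hx i
    exact hx _
  · intro hx F
    have := hx (e F)
    simpa using this

end Pool.Agent.Lib.MP_d56329_co
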