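import Mathlib

/-!
# The Lorentz form on the space of polygons with prescribed edge directions

`σ i ∈ {1, -1, 0}` is the type of the Gale vector `i` (upper half plane, lower half plane, zero)
and `a i` its slope.
-/

set_option autoImplicit false

open Finset

namespace Pool.Agent.Lib.MP_d56329_co

/-! ### Perturbation -/

theorem perturb {X : Type*} [TopologicalSpace X] {K : Set X} (hK : IsCompact K) {f g : X → ℝ}
    (hf : Continuous f) (hg : Continuous g) (hf0 : ∀ x ∈ K, 0 ≤ f x)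
    (hfg : ∀ x ∈ K, f x = 0 → 0 < g x) : ∃ ε > 0, ∀ x ∈ K, 0 < f x + ε * g x := by
  let K' : Set X := K ∩ {x | g x ≤ 0}
  have hK' : IsCompact K' := hK.inter_right (isClosed_le hg continuous_const)
  rcases K'.eq_empty_or_nonempty with h0 | hne
  · refine ⟨1, one_pos, fun x hx => ?_⟩
    have h1 : 0 < g x := by
      by_contra hcon
      push Not at hcon
      have : x ∈ K' := ⟨hx, hcon⟩
      rw [h0] at this
      exact this
    have := hf0 x hx
    linarith
  · obtain ⟨x₀, hx₀, hmin⟩ := hK'.exists_isMinOn hne hf.continuousOn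
    obtain ⟨x₁, hx₁, hmin'⟩ := hK'.exists_isMinOn hne hg.continuousOn
    have hpos : 0 < f x₀ := by
      rcases (hf0 x₀ hx₀.1).lt_or_eq with h | h
      · exact h
      · exact absurd (hfg x₀ hx₀.1 h.symm) (not_lt.mpr hx₀.2)
    have hg1 : g x₁ ≤ 0 := hx₁.2
    refine ⟨f x₀ / (2 * (1 - g x₁)), by
      have : 0 < 2 * (1 - g x₁) := by linarith
      positivity, fun x hx => ?_⟩
    have hden : 0 < 2 * (1 - g x₁) := by linarith
    by_cases hgx : g x ≤ 0
    · have h1 : f x₀ ≤ f x := hmin (⟨hx, hgx⟩ : x ∈ K')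
      have h2 : g x₁ ≤ g x := hmin' (⟨hx, hgx⟩ : x ∈ K')
      have h3 : f x₀ / (2 * (1 - g x₁)) * g x ≥ f x₀ / (2 * (1 - g x₁)) * g x₁ := by
        have : 0 < f x₀ / (2 * (1 - g x₁)) := by positivity
        nlinarith
      have h4 : f x₀ / (2 * (1 - g x₁)) * g x₁ > -(f x₀) := by
        rw [div_mul_eq_mul_div, gt_iff_lt, lt_div_iff₀ hden]
        nlinarith
      linarith
    · push Not at hgx
      have := hf0 x hx
      have : 0 < f x₀ / (2 * (1 - g x₁)) * g x := by positivity
      linarith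

/-- Three-level perturbation. -/
theorem perturb₃ {X : Type*} [TopologicalSpace X] {K : Set X} (hK : IsCompact K)
    {f g h : X → ℝ} (hf : Continuous f) (hg : Continuous g) (hh : Continuous h)
    (hf0 : ∀ x ∈ K, 0 ≤ f x)
    (hfg : ∀ x ∈ K, f x = 0 → 0 ≤ g x)
    (hfgh : ∀ x ∈ K, f x = 0 → g x = 0 → 0 < h x) :
    ∃ ε δ : ℝ, ∀ x ∈ K, 0 < f x + ε * (g x + δ * h x) := by
  have hK0 : IsCompact (K ∩ {x | f x = 0}) :=
    hK.inter_right (isClosed_eq hf continuous_const)
  obtain ⟨δ, -, hδ⟩ := perturb hK0 hg hh (fun x hx => hfg x hx.1 hx.2)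
    (fun x hx => hfgh x hx.1 hx.2)
  obtain ⟨ε, -, hε⟩ := perturb hK hf (hg.add (continuous_const.mul hh)) hf0
    (fun x hx hfx => hδ x ⟨hx, hfx⟩)
  exact ⟨ε, δ, hε⟩

/-! ### Ranks of slopes -/

variable {ι : Type*} [Fintype ι] [DecidableEq ι]

omit [DecidableEq ι] in
theorem exists_rank (a : ι → ℝ) :
    ∃ (s : ℕ → ℝ) (k : ι → ℕ), StrictMono s ∧ ∀ i, a i = s (k i) := by
  classical
  let G : Finset ℝ := univ.image a
  let e := G.orderEmbOfFin rfl
  let M : ℝ := ∑ i, |a i|
  have hM : ∀ x ∈ G, x ≤ M := by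
    intro x hx
    obtain ⟨i, -, rfl⟩ := mem_image.mp hx
    calc a i ≤ |a i| := le_abs_self _
      _ ≤ M := single_le_sum (f := fun i => |a i|) (fun j _ => abs_nonneg _) (mem_univ i)
  let s : ℕ → ℝ := fun r => if h : r < G.card then e ⟨r, h⟩ else M + 1 + r
  have hs : StrictMono s := by
    intro r r' hr
    simp only [s]
    by_cases h' : r' < G.card
    · have h : r < G.card := hr.trans h'
      rw [dif_pos h, dif_pos h']
      exact e.strictMono hr
    · rw [dif_neg h']
      by_cases h : r < G.card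
      · rw [dif_pos h]
        have h1 : e ⟨r, h⟩ ≤ M := hM _ (G.orderEmbOfFin_mem rfl _)
        have h2 : (0 : ℝ) ≤ r' := Nat.cast_nonneg _
        linarith
      · rw [dif_neg h]
        have : (r : ℝ) < r' := by exact_mod_cast hr
        linarith
  have hk : ∀ i, ∃ r, a i = s r := by
    intro i
    have h1 : a i ∈ Set.range e := by
      rw [Finset.range_orderEmbOfFin]
      simp [G]
    obtain ⟨⟨r, hr⟩, h2⟩ := h1
    refine ⟨r, ?_⟩
    simp only [s]
    rw [dif_pos hr, h2]
  choose k hk using hk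
  exact ⟨s, k, hs, hk⟩

/-- The cut indicator. -/
def chi (k : ι → ℕ) (r : ℕ) (i : ι) : ℝ := if k i ≤ r then 1 else 0

omit [Fintype ι] [DecidableEq ι] in
theorem chi_sq (k : ι → ℕ) (r : ℕ) (i : ι) : chi k r i ^ 2 = chi k r i := by
  unfold chi; split_ifs <;> norm_num

theorem telescope (s : ℕ → ℝ) (u v R : ℕ) (huv : u ≤ v) :
    ∑ r ∈ range R, (s (r + 1) - s r) *
      ((if u ≤ r then (1 : ℝ) else 0) - (if v ≤ r then (1 : ℝ) else 0)) ^ 2 =
      s (min v R) - s (min u R) := by
  induction R with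
  | zero => simp
  | succ R ih =>
    rw [sum_range_succ, ih]
    by_cases h1 : v ≤ R
    · have h2 : u ≤ R := huv.trans h1
      rw [min_eq_left h1, min_eq_left h2, min_eq_left (h1.trans (Nat.le_succ R)),
        min_eq_left (h2.trans (Nat.le_succ R))]
      simp [h1, h2]
    · by_cases h2 : u ≤ R
      · rw [min_eq_right (by omega : R ≤ v), min_eq_left h2,
          min_eq_right (by omega : R + 1 ≤ v), min_eq_left (by omega : u ≤ R + 1)]
        simp [h1, h2]
      · rw [min_eq_right (by omega : R ≤ v), min_eq_right (by omega : R ≤ u),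
          min_eq_right (by omega : R + 1 ≤ v), min_eq_right (by omega : R + 1 ≤ u)]
        simp [h1, h2]

omit [Fintype ι] [DecidableEq ι] in
theorem abs_sub_eq (a : ι → ℝ) (s : ℕ → ℝ) (k : ι → ℕ) (hs : StrictMono s)
    (hk : ∀ i, a i = s (k i)) (R : ℕ) (hR : ∀ i, k i ≤ R) (i j : ι) :
    |a i - a j| = ∑ r ∈ range R, (s (r + 1) - s r) * (chi k r i - chi k r j) ^ 2 := by
  rcases le_total (k i) (k j) with h | h
  · rw [hk i, hk j, abs_of_nonpos (by linarith [hs.monotone h])]
    have := telescope s (k i) (k j) R h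
    rw [min_eq_left (hR i), min_eq_left (hR j)] at this
    unfold chi
    rw [this]
    ring
  · rw [hk i, hk j, abs_of_nonneg (by linarith [hs.monotone h])]
    have := telescope s (k j) (k i) R h
    rw [min_eq_left (hR i), min_eq_left (hR j)] at this
    unfold chi
    rw [← this]
    refine sum_congr rfl fun r _ => ?_
    ring

/-! ### The three quadratic forms -/

/-- Leading form: nonnegative on `ker Σ`. -/
def fM (σ : ι → ℝ) : Matrix ι ι ℝ :=
  fun i j => (if i = j then 1 - σ i ^ 2 else 0) + σ i ^ 2 * σ j ^ 2 - 1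

/-- The Lorentz form on polygons. -/
noncomputable def hM (σ a : ι → ℝ) : Matrix ι ι ℝ :=
  fun i j => (-(σ i ^ 2 * σ j ^ 2) / 4 - 3 * (σ i * σ j) / 4) * |a i - a j|

/-- The correction for parallel directions. -/
noncomputable def gM (σ a : ι → ℝ) : Matrix ι ι ℝ :=
  fun i j => (if i = j then σ i ^ 2 else 0) -
    (if a i = a j then (σ i ^ 2 * σ j ^ 2 + σ i * σ j) / 2 else 0)

/-- The quadratic form of a matrix. -/
def qf (M : Matrix ι ι ℝ) (m : ι → ℝ) : ℝ := ∑ i, ∑ j, m i * M i j * m j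

theorem qf_fM (σ m : ι → ℝ) :
    qf (fM σ) m = ∑ i, (1 - σ i ^ 2) * m i ^ 2 + (∑ i, σ i ^ 2 * m i) ^ 2 - (∑ i, m i) ^ 2 := by
  have h1 : ∀ i j, m i * fM σ i j * m j = (if i = j then m i * (1 - σ i ^ 2) * m j else 0) +
      (σ i ^ 2 * m i) * (σ j ^ 2 * m j) - m i * m j := by
    intro i j
    unfold fM
    split_ifs <;> ring
  unfold qf
  simp only [h1, sum_sub_distrib, sum_add_distrib, sum_ite_eq, mem_univ, if_true, sq (∑ i, _),
    sum_mul_sum]
  congr 2
  refine sum_congr rfl fun i _ => ?_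
  ring

omit [DecidableEq ι] in
/-- The cut decomposition of the Lorentz form. -/
theorem qf_hM (σ a m : ι → ℝ) (s : ℕ → ℝ) (k : ι → ℕ) (hs : StrictMono s)
    (hk : ∀ i, a i = s (k i)) (R : ℕ) (hR : ∀ i, k i ≤ R)
    (h1 : ∑ i, σ i * m i = 0) (h2 : ∑ i, σ i ^ 2 * m i = 0) :
    qf (hM σ a) m = ∑ r ∈ range R, (s (r + 1) - s r) *
      ((∑ i, σ i ^ 2 * chi k r i * m i) ^ 2 / 2 +
        3 * (∑ i, σ i * chi k r i * m i) ^ 2 / 2) := by
  have e1 : ∀ i j, m i * hM σ a i j * m j = ∑ r ∈ range R, (s (r + 1) - s r) *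
      ((-(σ i ^ 2 * σ j ^ 2) / 4 - 3 * (σ i * σ j) / 4) *
        (chi k r i + chi k r j - 2 * chi k r i * chi k r j) * m i * m j) := by
    intro i j
    unfold hM
    rw [abs_sub_eq a s k hs hk R hR i j, mul_sum, mul_sum, sum_mul]
    refine sum_congr rfl fun r _ => ?_
    have c1 := chi_sq k r i
    have c2 := chi_sq k r j
    linear_combination (m i * (-(σ i ^ 2 * σ j ^ 2) / 4 - 3 * (σ i * σ j) / 4) * m j *
      (s (r + 1) - s r)) * (c1 + c2)
  unfold qf
  simp only [e1]
  have e2 : ∀ i, ∑ j, ∑ r ∈ range R, (s (r + 1) - s r) *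
      ((-(σ i ^ 2 * σ j ^ 2) / 4 - 3 * (σ i * σ j) / 4) *
        (chi k r i + chi k r j - 2 * chi k r i * chi k r j) * m i * m j) =
      ∑ r ∈ range R, ∑ j, (s (r + 1) - s r) *
      ((-(σ i ^ 2 * σ j ^ 2) / 4 - 3 * (σ i * σ j) / 4) *
        (chi k r i + chi k r j - 2 * chi k r i * chi k r j) * m i * m j) :=
    fun i => sum_comm
  simp only [e2]
  rw [sum_comm]
  refine sum_congr rfl fun r _ => ?_
  have e3 : ∀ i j, (s (r + 1) - s r) *
      ((-(σ i ^ 2 * σ j ^ 2) / 4 - 3 * (σ i * σ j) / 4) *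
        (chi k r i + chi k r j - 2 * chi k r i * chi k r j) * m i * m j) =
      (s (r + 1) - s r) * (
        (-1 / 4) * ((σ i ^ 2 * chi k r i * m i) * (σ j ^ 2 * m j)) +
        (-1 / 4) * ((σ i ^ 2 * m i) * (σ j ^ 2 * chi k r j * m j)) +
        (1 / 2) * ((σ i ^ 2 * chi k r i * m i) * (σ j ^ 2 * chi k r j * m j)) +
        (-3 / 4) * ((σ i * chi k r i * m i) * (σ j * m j)) +
        (-3 / 4) * ((σ i * m i) * (σ j * chi k r j * m j)) +
        (3 / 2) * ((σ i * chi k r i * m i) * (σ j * chi k r j * m j))) := by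
    intro i j; ring
  simp only [e3, ← mul_sum, sum_add_distrib, ← sum_mul, h1, h2]
  ring

omit [DecidableEq ι] in
theorem class_zero (σ a m : ι → ℝ) (s : ℕ → ℝ) (k : ι → ℕ) (hs : StrictMono s)
    (hk : ∀ i, a i = s (k i))
    (h1 : ∑ i, σ i * m i = 0) (h2 : ∑ i, σ i ^ 2 * m i = 0)
    (h0 : qf (hM σ a) m = 0) (r : ℕ) :
    ∑ i, σ i ^ 2 * chi k r i * m i = 0 ∧ ∑ i, σ i * chi k r i * m i = 0 := by
  obtain ⟨R, hR⟩ : ∃ R, ∀ i, k i ≤ R := ⟨∑ i, k i, fun i => single_le_sum (f := k)
    (fun _ _ => Nat.zero_le _) (mem_univ i)⟩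
  rw [qf_hM σ a m s k hs hk R hR h1 h2] at h0
  by_cases hr : r < R
  · have h3 := (sum_eq_zero_iff_of_nonneg (fun r _ => by
      have : 0 ≤ s (r + 1) - s r := by linarith [hs.monotone (Nat.le_succ r)]
      positivity)).mp h0 r (mem_range.mpr hr)
    have h4 : 0 < s (r + 1) - s r := by linarith [hs (Nat.lt_succ_self r)]
    have h5 := (mul_eq_zero.mp h3).resolve_left h4.ne'
    constructor
    · nlinarith [sq_nonneg (∑ i, σ i ^ 2 * chi k r i * m i),
        sq_nonneg (∑ i, σ i * chi k r i * m i)]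
    · nlinarith [sq_nonneg (∑ i, σ i ^ 2 * chi k r i * m i),
        sq_nonneg (∑ i, σ i * chi k r i * m i)]
  · have h6 : ∀ i, chi k r i = 1 := by
      intro i
      unfold chi
      rw [if_pos (by have := hR i; omega)]
    simp only [h6, mul_one]
    exact ⟨h2, h1⟩

omit [DecidableEq ι] in
theorem level_zero (σ a m : ι → ℝ) (h1 : ∑ i, σ i * m i = 0) (h2 : ∑ i, σ i ^ 2 * m i = 0)
    (h0 : qf (hM σ a) m = 0) (i : ι) :
    ∑ j, (if a i = a j then σ j ^ 2 * m j else 0) = 0 ∧
    ∑ j, (if a i = a j then σ j * m j else 0) = 0 := by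
  obtain ⟨s, k, hs, hk⟩ := exists_rank a
  have hcond : ∀ j, (a i = a j) ↔ k j = k i := by
    intro j
    rw [hk i, hk j, hs.injective.eq_iff, eq_comm]
  have hind : ∀ j, (if a i = a j then (1 : ℝ) else 0) =
      chi k (k i) j - (if 0 < k i then chi k (k i - 1) j else 0) := by
    intro j
    unfold chi
    simp only [hcond j]
    by_cases hki : 0 < k i
    · rw [if_pos hki]
      rcases lt_trichotomy (k j) (k i) with h | h | h
      · rw [if_neg (by omega), if_pos (by omega), if_pos (by omega)]; ring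
      · rw [if_pos (by omega), if_pos (by omega), if_neg (by omega)]; ring
      · rw [if_neg (by omega), if_neg (by omega), if_neg (by omega)]; ring
    · rw [if_neg hki]
      by_cases h : k j = k i
      · rw [if_pos h, if_pos (by omega)]; ring
      · rw [if_neg h, if_neg (by omega)]; ring
  have hc := class_zero σ a m s k hs hk h1 h2 h0
  constructor
  · have : ∀ j, (if a i = a j then σ j ^ 2 * m j else 0) =
        σ j ^ 2 * chi k (k i) j * m j -
          (if 0 < k i then σ j ^ 2 * chi k (k i - 1) j * m j else 0) := by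
      intro j
      have h3 := hind j
      calc (if a i = a j then σ j ^ 2 * m j else 0) =
          (if a i = a j then (1 : ℝ) else 0) * (σ j ^ 2 * m j) := by split_ifs <;> ring
        _ = _ := by rw [h3]; split_ifs <;> ring
    simp only [this, sum_sub_distrib]
    rw [(hc (k i)).1]
    by_cases hki : 0 < k i
    · simp only [hki, if_true]
      rw [(hc (k i - 1)).1]; ring
    · simp [hki]
  · have : ∀ j, (if a i = a j then σ j * m j else 0) =
        σ j * chi k (k i) j * m j -
          (if 0 < k i then σ j * chi k (k i - 1) j * m j else 0) := by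
      intro j
      have h3 := hind j
      calc (if a i = a j then σ j * m j else 0) =
          (if a i = a j then (1 : ℝ) else 0) * (σ j * m j) := by split_ifs <;> ring
        _ = _ := by rw [h3]; split_ifs <;> ring
    simp only [this, sum_sub_distrib]
    rw [(hc (k i)).2]
    by_cases hki : 0 < k i
    · simp only [hki, if_true]
      rw [(hc (k i - 1)).2]; ring
    · simp [hki]

omit [DecidableEq ι] in
theorem qf_hM_nonneg (σ a m : ι → ℝ) (h1 : ∑ i, σ i * m i = 0) (h2 : ∑ i, σ i ^ 2 * m i = 0) :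
    0 ≤ qf (hM σ a) m := by
  obtain ⟨s, k, hs, hk⟩ := exists_rank a
  obtain ⟨R, hR⟩ : ∃ R, ∀ i, k i ≤ R := ⟨∑ i, k i, fun i => single_le_sum (f := k)
    (fun _ _ => Nat.zero_le _) (mem_univ i)⟩
  rw [qf_hM σ a m s k hs hk R hR h1 h2]
  refine sum_nonneg fun r _ => ?_
  have : 0 ≤ s (r + 1) - s r := by linarith [hs.monotone (Nat.le_succ r)]
  positivity

theorem qf_gM (σ a m : ι → ℝ) (h1 : ∑ i, σ i * m i = 0) (h2 : ∑ i, σ i ^ 2 * m i = 0)
    (h0 : qf (hM σ a) m = 0) : qf (gM σ a) m = ∑ i, σ i ^ 2 * m i ^ 2 := by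
  have e1 : ∀ i j, m i * gM σ a i j * m j = (if i = j then σ i ^ 2 * m i * m j else 0) -
      (σ i ^ 2 * m i / 2 * (if a i = a j then σ j ^ 2 * m j else 0) +
        σ i * m i / 2 * (if a i = a j then σ j * m j else 0)) := by
    intro i j
    unfold gM
    split_ifs <;> ring
  unfold qf
  simp only [e1, sum_sub_distrib, sum_add_distrib, ← mul_sum, sum_ite_eq, mem_univ, if_true]
  have h3 := level_zero σ a m h1 h2 h0
  simp only [(h3 _).1, (h3 _).2, mul_zero, add_zero, sum_const_zero, sub_zero]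
  refine sum_congr rfl fun i _ => ?_
  ring

/-! ### Elementary properties of `qf` -/

omit [DecidableEq ι] in
theorem qf_add (M N : Matrix ι ι ℝ) (m : ι → ℝ) : qf (M + N) m = qf M m + qf N m := by
  unfold qf
  simp only [Matrix.add_apply, mul_add, add_mul, sum_add_distrib]

omit [DecidableEq ι] in
theorem qf_smul (c : ℝ) (M : Matrix ι ι ℝ) (m : ι → ℝ) : qf (c • M) m = c * qf M m := by
  unfold qf
  simp only [Matrix.smul_apply, smul_eq_mul, mul_sum]
  refine sum_congr rfl fun i _ => sum_congr rfl fun j _ => ?_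
  ring

omit [DecidableEq ι] in
theorem qf_smul_vec (c : ℝ) (M : Matrix ι ι ℝ) (m : ι → ℝ) :
    qf M (c • m) = c ^ 2 * qf M m := by
  unfold qf
  simp only [Pi.smul_apply, smul_eq_mul, mul_sum]
  refine sum_congr rfl fun i _ => sum_congr rfl fun j _ => ?_
  ring

omit [DecidableEq ι] in
theorem continuous_qf (M : Matrix ι ι ℝ) : Continuous (qf M) := by
  unfold qf
  fun_prop

theorem qf_eq_toBilin (M : Matrix ι ι ℝ) (m : ι → ℝ) : qf M m = Matrix.toBilin' M m m := by
  rw [Matrix.toBilin'_apply]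
  rfl

theorem definite (σ a : ι → ℝ) (hσ : ∀ i, σ i = 1 ∨ σ i = -1 ∨ σ i = 0) :
    ∃ ε δ : ℝ, ∀ m : ι → ℝ, ∑ i, σ i * m i = 0 → ∑ i, m i = 0 → m ≠ 0 →
      0 < qf (fM σ + ε • (hM σ a + δ • gM σ a)) m := by
  have hσ2 : ∀ i, 0 ≤ 1 - σ i ^ 2 := by
    intro i
    rcases hσ i with h | h | h <;> rw [h] <;> norm_num
  let K : Set (ι → ℝ) := Metric.sphere 0 1 ∩ ({m | ∑ i, σ i * m i = 0} ∩ {m | ∑ i, m i = 0})
  have hK : IsCompact K := by
    refine (isCompact_sphere _ _).inter_right (IsClosed.inter ?_ ?_)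
    · exact isClosed_eq (by fun_prop) continuous_const
    · exact isClosed_eq (by fun_prop) continuous_const
  have hf : ∀ m ∈ K, qf (fM σ) m = ∑ i, (1 - σ i ^ 2) * m i ^ 2 + (∑ i, σ i ^ 2 * m i) ^ 2 := by
    intro m hm
    have h2 : ∑ i, m i = 0 := hm.2.2
    rw [qf_fM, h2]
    ring
  have hsum0 : ∀ m : ι → ℝ, 0 ≤ ∑ i, (1 - σ i ^ 2) * m i ^ 2 := fun m =>
    sum_nonneg fun i _ => mul_nonneg (hσ2 i) (sq_nonneg _)
  have hf1 : ∀ m ∈ K, qf (fM σ) m = 0 →
      (∑ i, σ i ^ 2 * m i = 0) ∧ ∀ i, (1 - σ i ^ 2) * m i ^ 2 = 0 := by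
    intro m hm h0
    rw [hf m hm] at h0
    have h1 := hsum0 m
    have h2 : ∑ i, (1 - σ i ^ 2) * m i ^ 2 = 0 := by nlinarith [sq_nonneg (∑ i, σ i ^ 2 * m i)]
    refine ⟨by nlinarith [sq_nonneg (∑ i, σ i ^ 2 * m i)], fun i => ?_⟩
    exact (sum_eq_zero_iff_of_nonneg
      (fun i _ => mul_nonneg (hσ2 i) (sq_nonneg (m i)))).mp h2 i (mem_univ i)
  obtain ⟨ε, δ, hεδ⟩ := perturb₃ hK (continuous_qf (fM σ)) (continuous_qf (hM σ a))
    (continuous_qf (gM σ a))
    (fun m hm => by
      rw [hf m hm]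
      have := hsum0 m
      positivity)
    (fun m hm h0 => qf_hM_nonneg σ a m hm.2.1 (hf1 m hm h0).1)
    (fun m hm h0 h0' => by
      rw [qf_gM σ a m hm.2.1 (hf1 m hm h0).1 h0']
      have h1 : ∀ i, σ i ^ 2 * m i ^ 2 = m i ^ 2 := fun i => by
        have := (hf1 m hm h0).2 i
        linarith
      simp only [h1]
      have hm0 : m ≠ 0 := by
        rintro rfl
        have := hm.1
        simp at this
      obtain ⟨i, hi⟩ := Function.ne_iff.mp hm0
      refine sum_pos' (fun i _ => sq_nonneg _) ⟨i, mem_univ i, ?_⟩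
      have hi' : m i ≠ 0 := hi
      positivity)
  refine ⟨ε, δ, fun m h1 h2 hm0 => ?_⟩
  have hnorm : 0 < ‖m‖ := norm_pos_iff.mpr hm0
  have hmK : ‖m‖⁻¹ • m ∈ K := by
    refine ⟨?_, ?_, ?_⟩
    · rw [mem_sphere_zero_iff_norm, norm_smul, norm_inv, norm_norm, inv_mul_cancel₀ hnorm.ne']
    · show ∑ i, σ i * (‖m‖⁻¹ • m) i = 0
      simp only [Pi.smul_apply, smul_eq_mul]
      have : ∀ i, σ i * (‖m‖⁻¹ * m i) = ‖m‖⁻¹ * (σ i * m i) := fun i => by ring
      simp only [this, ← mul_sum, h1, mul_zero]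
    · show ∑ i, (‖m‖⁻¹ • m) i = 0
      simp only [Pi.smul_apply, smul_eq_mul, ← mul_sum, h2, mul_zero]
  have h3 := hεδ _ hmK
  rw [← qf_smul δ, ← qf_add, ← qf_smul ε, ← qf_add, qf_smul_vec] at h3
  have h4 : 0 < (‖m‖⁻¹) ^ 2 := by positivity
  exact (mul_pos_iff_of_pos_left h4).mp h3

/-! ### Isotropy on minimal vectors -/

theorem hM_pair (σ a : ι → ℝ) (i k : ι) (ha : a i = a k) :
    qf (hM σ a) (Pi.single i 1 + Pi.single k 1) = 0 := by
  rw [qf_eq_toBilin]
  simp only [map_add, LinearMap.add_apply, Matrix.toBilin'_single]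
  simp [hM, ha]

theorem hM_triple (σ a : ι → ℝ) (i j k : ι) (s : ℝ) (hs : s ^ 2 = 1) (hi : σ i = s)
    (hj : σ j = s) (hk : σ k = -s) (h1 : a i ≤ a k) (h2 : a k ≤ a j) :
    qf (hM σ a) ((a j - a k) • Pi.single i 1 + (a k - a i) • Pi.single j 1 +
      (a j - a i) • Pi.single k 1) = 0 := by
  rw [qf_eq_toBilin]
  simp only [map_add, map_smul, LinearMap.add_apply, LinearMap.smul_apply, smul_eq_mul,
    Matrix.toBilin'_single]
  have e1 : |a i - a k| = a k - a i := by rw [abs_of_nonpos (by linarith)]; ring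
  have e2 : |a k - a i| = a k - a i := by rw [abs_of_nonneg (by linarith)]
  have e3 : |a i - a j| = a j - a i := by rw [abs_of_nonpos (by linarith)]; ring
  have e4 : |a j - a i| = a j - a i := by rw [abs_of_nonneg (by linarith)]
  have e5 : |a k - a j| = a j - a k := by rw [abs_of_nonpos (by linarith)]; ring
  have e6 : |a j - a k| = a j - a k := by rw [abs_of_nonneg (by linarith)]
  simp only [hM, hi, hj, hk, e1, e2, e3, e4, e5, e6, sub_self, abs_zero, mul_zero, zero_add,
    add_zero]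
  have hs4 : s ^ 2 * s ^ 2 = 1 := by rw [hs]; ring
  have hss : s * s = 1 := by rw [← sq]; exact hs
  have hsn : s * -s = -1 := by rw [mul_neg, hss]
  have hsn' : -s * s = -1 := by rw [neg_mul, hss]
  have hsn2 : (-s) ^ 2 = 1 := by rw [neg_sq]; exact hs
  simp only [hss, hsn, hsn', hsn2, hs]
  ring

/-- The closedness conditions of a polygon with prescribed edge directions. -/
def Closed (σ a m : ι → ℝ) : Prop := ∑ i, σ i * m i = 0 ∧ ∑ i, σ i * a i * m i = 0

/-- Vectors of minimal support. -/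
def Minimal (σ a m : ι → ℝ) : Prop :=
  ∀ m' : ι → ℝ, Closed σ a m' → (∀ i, m i = 0 → m' i = 0) → ∃ c : ℝ, m' = c • m

theorem closed_single (σ a : ι → ℝ) (z : ι) (hz : σ z = 0) : Closed σ a (Pi.single z 1) := by
  constructor
  · simp [Pi.single_apply, hz]
  · simp [Pi.single_apply, hz]

omit [DecidableEq ι] in
theorem qf_of_minimal (σ a m m' : ι → ℝ) (hmin : Minimal σ a m) (hcl : Closed σ a m')
    (hsupp : ∀ i, m i = 0 → m' i = 0) (hm' : m' ≠ 0) (M : Matrix ι ι ℝ) (h0 : qf M m' = 0) :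
    qf M m = 0 := by
  obtain ⟨c, hc⟩ := hmin m' hcl hsupp
  have hc0 : c ≠ 0 := by
    rintro rfl
    apply hm'
    rw [hc, zero_smul]
  rw [hc, qf_smul_vec] at h0
  exact (mul_eq_zero.mp h0).resolve_left (pow_ne_zero 2 hc0)

theorem hM_of_triple (σ a m : ι → ℝ) (hmin : Minimal σ a m) (i j k : ι) (s : ℝ)
    (hs : s ^ 2 = 1) (hi : σ i = s) (hj : σ j = s) (hk : σ k = -s) (h1 : a i ≤ a k)
    (h2 : a k ≤ a j) (hmi : m i ≠ 0) (hmj : m j ≠ 0) (hmk : m k ≠ 0) :
    qf (hM σ a) m = 0 := by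
  have hs0 : s ≠ 0 := by
    rintro rfl
    norm_num at hs
  have hik : i ≠ k := by
    rintro rfl
    rw [hi] at hk
    apply hs0
    linarith
  by_cases hij : a i = a j
  · have hak : a i = a k := le_antisymm h1 (h2.trans hij.symm.le)
    refine qf_of_minimal σ a m (Pi.single i 1 + Pi.single k 1) hmin ⟨?_, ?_⟩ ?_ ?_ _
      (hM_pair σ a i k hak)
    · simp [Pi.single_apply, mul_add, sum_add_distrib, hi, hk]
    · simp [Pi.single_apply, mul_add, sum_add_distrib, hi, hk, hak]
    · intro l hl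
      have hli : l ≠ i := fun h => hmi (h ▸ hl)
      have hlk : l ≠ k := fun h => hmk (h ▸ hl)
      simp [hli, hlk]
    · intro h
      have := congr_fun h i
      simp [hik] at this
  · have hlt : a i < a j := lt_of_le_of_ne (h1.trans h2) hij
    have hij' : i ≠ j := fun h => hij (by rw [h])
    have hjk : j ≠ k := by
      rintro rfl
      rw [hj] at hk
      apply hs0
      linarith
    refine qf_of_minimal σ a m _ hmin ⟨?_, ?_⟩ ?_ ?_ _
      (hM_triple σ a i j k s hs hi hj hk h1 h2)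
    · simp [Pi.single_apply, mul_add, sum_add_distrib, hi, hj, hk]
      ring
    · simp [Pi.single_apply, mul_add, sum_add_distrib, hi, hj, hk]
      ring
    · intro l hl
      have hli : l ≠ i := fun h => hmi (h ▸ hl)
      have hlj : l ≠ j := fun h => hmj (h ▸ hl)
      have hlk : l ≠ k := fun h => hmk (h ▸ hl)
      simp [hli, hlj, hlk]
    · intro h
      have := congr_fun h k
      simp [hik.symm, hjk.symm] at this
      linarith

theorem hM_isotropic (σ a m : ι → ℝ) (hσ : ∀ i, σ i = 1 ∨ σ i = -1 ∨ σ i = 0)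
    (hcl : Closed σ a m) (hm : ∀ i, 0 ≤ m i) (hm0 : m ≠ 0) (hmin : Minimal σ a m)
    (hz : ∀ i, σ i = 0 → m i = 0) : qf (hM σ a) m = 0 := by
  -- the two halves of the support
  let U : Finset ι := univ.filter fun i => σ i = 1 ∧ m i ≠ 0
  let L : Finset ι := univ.filter fun i => σ i = -1 ∧ m i ≠ 0
  have hU : ∀ {f : ι → ℝ}, ∑ i, ((σ i ^ 2 + σ i) / 2) * f i * m i = ∑ i ∈ U, f i * m i := by
    intro f
    rw [sum_filter]
    refine sum_congr rfl fun i _ => ?_
    by_cases hmi : m i = 0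
    · simp [hmi]
    · rcases hσ i with h | h | h
      · rw [if_pos ⟨h, hmi⟩, h]; ring
      · rw [if_neg (fun hc => by rw [h] at hc; norm_num at hc), h]; ring
      · exact absurd (hz i h) hmi
  have hL : ∀ {f : ι → ℝ}, ∑ i, ((σ i ^ 2 - σ i) / 2) * f i * m i = ∑ i ∈ L, f i * m i := by
    intro f
    rw [sum_filter]
    refine sum_congr rfl fun i _ => ?_
    by_cases hmi : m i = 0
    · simp [hmi]
    · rcases hσ i with h | h | h
      · rw [if_neg (fun hc => by rw [h] at hc; norm_num at hc), h]; ring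
      · rw [if_pos ⟨h, hmi⟩, h]; ring
      · exact absurd (hz i h) hmi
  have hUL : ∀ {f : ι → ℝ}, ∑ i, σ i * f i * m i = 0 →
      ∑ i ∈ U, f i * m i = ∑ i ∈ L, f i * m i := by
    intro f hf
    rw [← hU, ← hL, ← sub_eq_zero, ← sum_sub_distrib, ← hf]
    refine sum_congr rfl fun i _ => ?_
    ring
  have hmass : ∑ i ∈ U, m i = ∑ i ∈ L, m i := by
    have := hUL (f := fun _ => 1) (by simpa using hcl.1)
    simpa using this
  have hmom : ∑ i ∈ U, a i * m i = ∑ i ∈ L, a i * m i := hUL hcl.2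
  have hpos : 0 < ∑ i ∈ U, m i := by
    obtain ⟨i, hi⟩ := Function.ne_iff.mp hm0
    have hi' : m i ≠ 0 := hi
    have hmi : 0 < m i := lt_of_le_of_ne (hm i) hi'.symm
    rcases hσ i with h | h | h
    · exact sum_pos' (fun j _ => hm j) ⟨i, by simp [U, h, hi'], hmi⟩
    · rw [hmass]
      exact sum_pos' (fun j _ => hm j) ⟨i, by simp [L, h, hi'], hmi⟩
    · exact absurd (hz i h) hi'
  have hUne : U.Nonempty := by
    by_contra hcon
    rw [not_nonempty_iff_eq_empty] at hcon
    rw [hcon] at hpos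
    simp at hpos
  have hLne : L.Nonempty := by
    by_contra hcon
    rw [not_nonempty_iff_eq_empty] at hcon
    rw [hmass, hcon] at hpos
    simp at hpos
  obtain ⟨i, hi, himin⟩ := U.exists_min_image a hUne
  obtain ⟨j, hj, hjmax⟩ := U.exists_max_image a hUne
  obtain ⟨k, hk, hkmin⟩ := L.exists_min_image a hLne
  obtain ⟨l, hl, hlmax⟩ := L.exists_max_image a hLne
  have hil : a i ≤ a l := by
    have h1 : a i * ∑ i ∈ U, m i ≤ ∑ i ∈ U, a i * m i := by
      rw [mul_sum]
      exact sum_le_sum fun x hx => mul_le_mul_of_nonneg_right (himin x hx) (hm x)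
    have h2 : ∑ i ∈ L, a i * m i ≤ a l * ∑ i ∈ L, m i := by
      rw [mul_sum]
      exact sum_le_sum fun x hx => mul_le_mul_of_nonneg_right (hlmax x hx) (hm x)
    rw [hmom] at h1
    rw [← hmass] at h2
    exact le_of_mul_le_mul_right (h1.trans h2) hpos
  have hkj : a k ≤ a j := by
    have h1 : a k * ∑ i ∈ L, m i ≤ ∑ i ∈ L, a i * m i := by
      rw [mul_sum]
      exact sum_le_sum fun x hx => mul_le_mul_of_nonneg_right (hkmin x hx) (hm x)
    have h2 : ∑ i ∈ U, a i * m i ≤ a j * ∑ i ∈ U, m i := by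
      rw [mul_sum]
      exact sum_le_sum fun x hx => mul_le_mul_of_nonneg_right (hjmax x hx) (hm x)
    rw [← hmom, ← hmass] at h1
    exact le_of_mul_le_mul_right (h1.trans h2) hpos
  simp only [U, L, mem_filter, mem_univ, true_and] at hi hj hk hl
  rcases le_total (a i) (a k) with hik | hki
  · exact hM_of_triple σ a m hmin i j k 1 (by norm_num) hi.1 hj.1 hk.1 hik hkj hi.2 hj.2 hk.2
  · exact hM_of_triple σ a m hmin k l i (-1) (by norm_num) hk.1 hl.1 (by rw [hi.1]; norm_num)
      hki hil hk.2 hl.2 hi.2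

theorem isotropic (σ a m : ι → ℝ) (hσ : ∀ i, σ i = 1 ∨ σ i = -1 ∨ σ i = 0)
    (hcl : Closed σ a m) (hm : ∀ i, 0 ≤ m i) (hm0 : m ≠ 0) (hmin : Minimal σ a m)
    (ε δ : ℝ) : qf (fM σ + ε • (hM σ a + δ • gM σ a)) m = 0 := by
  by_cases hz : ∀ i, σ i = 0 → m i = 0
  · -- no zero Gale vector in the support
    have hF : qf (fM σ) m = 0 := by
      rw [qf_fM]
      have h1 : ∀ i, (1 - σ i ^ 2) * m i ^ 2 = 0 := by
        intro i
        rcases hσ i with h | h | h
        · rw [h]; ring
        · rw [h]; ring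
        · rw [hz i h]; ring
      have h2 : ∀ i, σ i ^ 2 * m i = m i := by
        intro i
        rcases hσ i with h | h | h
        · rw [h]; ring
        · rw [h]; ring
        · rw [hz i h]; ring
      simp only [h1, h2, sum_const_zero]
      ring
    have hH : qf (hM σ a) m = 0 := hM_isotropic σ a m hσ hcl hm hm0 hmin hz
    have hG : qf (gM σ a) m = 0 := by
      unfold qf
      refine sum_eq_zero fun i _ => sum_eq_zero fun j _ => ?_
      by_cases hij : i = j
      · subst hij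
        rcases hσ i with h | h | h
        · simp [gM, h]
        · simp [gM, h]
        · simp [gM, h]
      · by_contra hne
        have hmi : m i ≠ 0 := fun h => hne (by rw [h]; ring)
        have hmj : m j ≠ 0 := fun h => hne (by rw [h]; ring)
        have hg : gM σ a i j ≠ 0 := fun h => hne (by rw [h]; ring)
        have ha : a i = a j := by
          by_contra hc
          apply hg
          simp [gM, hij, hc]
        have hs : σ i = σ j := by
          by_contra hc
          apply hg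
          rcases hσ i with h | h | h <;> rcases hσ j with h' | h' | h' <;>
            first
            | exact absurd (h.trans h'.symm) hc
            | simp [gM, hij, h, h']
        obtain ⟨c, hc⟩ := hmin (Pi.single i 1 - Pi.single j 1) ⟨by
            simp [Pi.single_apply, mul_sub, sum_sub_distrib, hs], by
            simp [Pi.single_apply, mul_sub, sum_sub_distrib, hs, ha]⟩ (by
            intro l hl
            have hli : l ≠ i := fun h => hmi (h ▸ hl)
            have hlj : l ≠ j := fun h => hmj (h ▸ hl)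
            simp [hli, hlj])
        have e1 := congr_fun hc i
        have e2 := congr_fun hc j
        simp only [Pi.sub_apply, Pi.single_eq_same, Pi.smul_apply, smul_eq_mul,
          Pi.single_eq_of_ne hij, Pi.single_eq_of_ne (Ne.symm hij)] at e1 e2
        have hmi' : 0 < m i := lt_of_le_of_ne (hm i) (Ne.symm hmi)
        have hmj' : 0 < m j := lt_of_le_of_ne (hm j) (Ne.symm hmj)
        have hc0 : 0 < c := by
          by_contra hcon
          push Not at hcon
          nlinarith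
        nlinarith
    rw [qf_add, qf_smul, qf_add, qf_smul, hF, hH, hG]
    ring
  · push Not at hz
    obtain ⟨z, hz0, hmz⟩ := hz
    refine qf_of_minimal σ a m (Pi.single z 1) hmin (closed_single σ a z hz0) ?_ ?_ _ ?_
    · intro i hi
      have : i ≠ z := fun h => hmz (h ▸ hi)
      simp [this]
    · intro h
      have := congr_fun h z
      simp at this
    · rw [qf_eq_toBilin, Matrix.toBilin'_single]
      simp [fM, hM, gM, hz0]

end Pool.Agent.Lib.MP_d56329_co
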