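import Pool.Agent.Lib.MP_d56329_co.Facets
import Pool.Agent.Lib.MP_d56329_co.Lorentz

/-!
# Every `d`-polytope with at most `d + 3` facets is inscribable
-/

set_option autoImplicit false

open Set Module

namespace Pool.Agent.Lib.MP_d56329_co

/-- A bounded set contains no ray. -/
theorem no_ray {E : Type*} [NormedAddCommGroup E] [NormedSpace ℝ E] {P : Set E}
    (hP : Bornology.IsBounded P) (z v : E) (h : ∀ t : ℝ, 0 ≤ t → z + t • v ∈ P) : v = 0 := by
  by_contra hv
  obtain ⟨R, hR⟩ := hP.exists_norm_le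
  have hv' : 0 < ‖v‖ := norm_pos_iff.mpr hv
  have hR0 : 0 ≤ R := (norm_nonneg _).trans (hR _ (h 0 le_rfl))
  have h1 := hR _ (h ((R + ‖z‖ + 1) / ‖v‖) (by positivity))
  have h2 : ‖((R + ‖z‖ + 1) / ‖v‖) • v‖ = R + ‖z‖ + 1 := by
    rw [norm_smul, Real.norm_of_nonneg (by positivity)]
    field_simp
  have h3 : ‖((R + ‖z‖ + 1) / ‖v‖) • v‖ ≤ ‖z + ((R + ‖z‖ + 1) / ‖v‖) • v‖ + ‖z‖ := by
    have := norm_sub_le (z + ((R + ‖z‖ + 1) / ‖v‖) • v) z
    rwa [add_sub_cancel_left] at this
  rw [h2] at h3
  linarith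

/-- The homogenized slack map. -/
noncomputable def slack {d : ℕ} {ι : Type} (l : ι → (Euc d →ₗ[ℝ] ℝ)) (b : ι → ℝ) :
    (Euc d × ℝ) →ₗ[ℝ] (ι → ℝ) :=
  LinearMap.pi fun i => b i • LinearMap.snd ℝ (Euc d) ℝ - (l i).comp (LinearMap.fst ℝ (Euc d) ℝ)

theorem slack_apply {d : ℕ} {ι : Type} (l : ι → (Euc d →ₗ[ℝ] ℝ)) (b : ι → ℝ) (x : Euc d)
    (t : ℝ) (i : ι) : slack l b (x, t) i = b i * t - l i x := by
  simp [slack]

theorem slack_injective {d : ℕ} {ι : Type} (l : ι → (Euc (d + 1) →ₗ[ℝ] ℝ)) (b : ι → ℝ)
    (hbd : Bornology.IsBounded {x | ∀ i, l i x ≤ b i})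
    (hint : (interior {x | ∀ i, l i x ≤ b i}).Nonempty) :
    Function.Injective (slack l b) := by
  set P : Set (Euc (d + 1)) := {x | ∀ i, l i x ≤ b i} with hP
  obtain ⟨z, hz⟩ := hint
  have hzP : z ∈ P := interior_subset hz
  rw [← LinearMap.ker_eq_bot, LinearMap.ker_eq_bot']
  rintro ⟨x, t⟩ hx
  have h1 : ∀ i, b i * t - l i x = 0 := fun i => by
    rw [← slack_apply]
    rw [hx]
    rfl
  by_cases ht : t = 0
  · subst ht
    have h2 : x = 0 := by
      refine no_ray hbd z x fun s _ i => ?_
      have := h1 i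
      have := hzP i
      rw [map_add, map_smul, smul_eq_mul]
      have h3 : l i x = 0 := by linarith
      rw [h3]
      linarith
    rw [h2]
    rfl
  · exfalso
    have h2 : ∀ y ∈ P, y = t⁻¹ • x := by
      intro y hy
      rw [← sub_eq_zero]
      refine no_ray hbd y (y - t⁻¹ • x) fun s hs i => ?_
      have h3 : l i (t⁻¹ • x) = b i := by
        have := h1 i
        rw [map_smul, smul_eq_mul]
        field_simp
        linarith
      have h4 := hy i
      rw [map_add, map_smul, smul_eq_mul, map_sub, h3]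
      nlinarith
    have h3 : P ⊆ {t⁻¹ • x} := fun y hy => h2 y hy
    have h4 : interior P ⊆ ∅ := by
      have := interior_mono h3
      rwa [interior_singleton] at this
    exact h4 hz

/-- Generic coordinates on the Gale plane. -/
theorem exists_gale {W : Type} [AddCommGroup W] [Module ℝ W] [FiniteDimensional ℝ W]
    {ι : Type} [Fintype ι] [DecidableEq ι] (L : W →ₗ[ℝ] (ι → ℝ)) (hL : Function.Injective L)
    (hcard : Fintype.card ι ≤ finrank ℝ W + 2) :
    ∃ (σ a D : ι → ℝ), (∀ i, σ i = 1 ∨ σ i = -1 ∨ σ i = 0) ∧ (∀ i, 0 < D i) ∧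
      ∀ y : ι → ℝ, Closed σ a (fun i => D i * y i) ↔ y ∈ LinearMap.range L := by
  have h1 : finrank ℝ ((ι → ℝ) ⧸ LinearMap.range L) ≤ finrank ℝ (Fin 2 → ℝ) := by
    have h2 := Submodule.finrank_quotient_add_finrank (LinearMap.range L)
    have h3 := LinearMap.finrank_range_of_inj hL
    simp only [finrank_fintype_fun_eq_card, Fintype.card_fin] at h2 ⊢
    omega
  obtain ⟨f, hf⟩ := finrank_le_iff_exists_linearMap.mp h1
  let g : (ι → ℝ) →ₗ[ℝ] (Fin 2 → ℝ) := f.comp (LinearMap.range L).mkQ
  have hg : ∀ y, g y = 0 ↔ y ∈ LinearMap.range L := by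
    intro y
    simp only [g, LinearMap.comp_apply]
    rw [map_eq_zero_iff f hf, Submodule.mkQ_apply, Submodule.Quotient.mk_eq_zero]
  let p : ι → ℝ := fun i => g (Pi.single i 1) 0
  let q₀ : ι → ℝ := fun i => g (Pi.single i 1) 1
  have hgy : ∀ (y : ι → ℝ) (k : Fin 2), g y k = ∑ i, g (Pi.single i 1) k * y i := by
    intro y k
    conv_lhs => rw [← Finset.univ_sum_single y]
    rw [map_sum, Finset.sum_apply]
    refine Finset.sum_congr rfl fun i _ => ?_
    have : (Pi.single i (y i) : ι → ℝ) = y i • Pi.single i 1 := by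
      ext j
      by_cases hj : j = i
      · subst hj; simp
      · simp [hj]
    rw [this, map_smul, Pi.smul_apply, smul_eq_mul, mul_comm]
  -- a generic shear
  obtain ⟨c, hc⟩ := Infinite.exists_notMem_finset (Finset.univ.image fun i => -(q₀ i) / p i)
  let q : ι → ℝ := fun i => q₀ i + c * p i
  have hq : ∀ i, q i = 0 → p i = 0 := by
    intro i hi
    by_contra hpi
    apply hc
    rw [Finset.mem_image]
    refine ⟨i, Finset.mem_univ i, ?_⟩
    have : q₀ i + c * p i = 0 := hi
    field_simp
    linarith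
  refine ⟨fun i => Real.sign (q i), fun i => p i / q i, fun i => if q i = 0 then 1 else |q i|,
    ?_, ?_, ?_⟩
  · intro i
    rcases Real.sign_apply_eq (q i) with h | h | h
    · exact Or.inr (Or.inl h)
    · exact Or.inr (Or.inr h)
    · exact Or.inl h
  · intro i
    simp only
    split_ifs with h
    · exact one_pos
    · exact abs_pos.mpr h
  · intro y
    have e1 : ∀ i, Real.sign (q i) * ((if q i = 0 then 1 else |q i|) * y i) = q i * y i := by
      intro i
      rcases lt_trichotomy (q i) 0 with h | h | h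
      · rw [if_neg h.ne, Real.sign_of_neg h, abs_of_neg h]; ring
      · rw [if_pos h, h, Real.sign_zero]; ring
      · rw [if_neg h.ne', Real.sign_of_pos h, abs_of_pos h]; ring
    have e2 : ∀ i, Real.sign (q i) * (p i / q i) * ((if q i = 0 then 1 else |q i|) * y i) =
        p i * y i := by
      intro i
      by_cases h : q i = 0
      · rw [hq i h, h, Real.sign_zero]; ring
      · have := e1 i
        calc Real.sign (q i) * (p i / q i) * ((if q i = 0 then 1 else |q i|) * y i)
            = (p i / q i) * (Real.sign (q i) * ((if q i = 0 then 1 else |q i|) * y i)) := by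
              ring
          _ = _ := by rw [this]; field_simp
    unfold Closed
    simp only [e1, e2]
    rw [← hg]
    have e3 : ∑ i, p i * y i = g y 0 := (hgy y 0).symm
    have e4 : ∑ i, q i * y i = g y 1 + c * g y 0 := by
      rw [hgy y 1, hgy y 0, Finset.mul_sum, ← Finset.sum_add_distrib]
      refine Finset.sum_congr rfl fun i _ => ?_
      simp only [q, q₀, p]
      ring
    rw [e3, e4]
    constructor
    · rintro ⟨h2, h3⟩
      ext k
      fin_cases k
      · exact h3
      · have h4 : g y 0 = 0 := h3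
        rw [h4] at h2
        simpa using h2
    · intro h
      rw [h]
      simp

theorem main_pos {d : ℕ} (S : Finset (Euc (d + 1)))
    (hint : (interior (convexHull ℝ (S : Set (Euc (d + 1))))).Nonempty)
    (hfac : (facets (S : Set (Euc (d + 1)))).ncard ≤ (d + 1) + 3) :
    ∃ T : Finset (Euc (d + 1)), ∃ c : Euc (d + 1), ∃ r : ℝ,
      (T : Set (Euc (d + 1))) ⊆ Metric.sphere c r ∧
      ∃ e : Euc (d + 1) → Euc (d + 1),
        Set.BijOn e
          ((convexHull ℝ (S : Set (Euc (d + 1)))).extremePoints ℝ)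
          ((convexHull ℝ (T : Set (Euc (d + 1)))).extremePoints ℝ) ∧
        ∀ A ⊆ (convexHull ℝ (S : Set (Euc (d + 1)))).extremePoints ℝ,
          (IsExposed ℝ (convexHull ℝ (S : Set (Euc (d + 1)))) (convexHull ℝ A) ↔
            IsExposed ℝ (convexHull ℝ (T : Set (Euc (d + 1))))
              (convexHull ℝ (e '' A))) := by
  classical
  obtain ⟨ι, _, l, b, hcard, hP⟩ := exists_ineqs S hint hfac
  have hne : S.Nonempty := by
    have h1 : (convexHull ℝ (S : Set (Euc (d + 1)))).Nonempty := hint.mono interior_subset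
    rw [convexHull_nonempty_iff] at h1
    exact h1
  have hbd : Bornology.IsBounded {x : Euc (d + 1) | ∀ i, l i x ≤ b i} := by
    rw [← hP]
    exact (S.finite_toSet.isCompact_convexHull (𝕜 := ℝ)).isBounded
  have hinj : Function.Injective (slack l b) := slack_injective l b hbd (hP ▸ hint)
  obtain ⟨σ, a, D, hσ, hD, hcl⟩ := exists_gale (slack l b) hinj (by
    rw [Module.finrank_prod]
    simp only [finrank_euclideanSpace_fin, finrank_self]
    omega)
  obtain ⟨ε, δ, hdef⟩ := definite σ a hσ
  set M : Matrix ι ι ℝ := fM σ + ε • (hM σ a + δ • gM σ a) with hMdef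
  -- scaled slack map
  let LD : (Euc (d + 1) × ℝ) →ₗ[ℝ] (ι → ℝ) :=
    LinearMap.pi fun i => D i • (LinearMap.proj i).comp (slack l b)
  have hLD : ∀ v i, LD v i = D i * slack l b v i := fun v i => by simp [LD]
  have hLDcl : ∀ v, Closed σ a (LD v) := by
    intro v
    have : LD v = fun i => D i * slack l b v i := by
      ext i; exact hLD v i
    rw [this, hcl]
    exact LinearMap.mem_range_self _ v
  have hLD0 : ∀ v, LD v = 0 → v = 0 := by
    intro v hv
    apply hinj
    rw [map_zero]
    ext i
    have h1 := congr_fun hv i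
    rw [hLD] at h1
    exact (mul_eq_zero.mp h1).resolve_left (hD i).ne'
  let B : (Euc (d + 1) × ℝ) →ₗ[ℝ] (Euc (d + 1) × ℝ) →ₗ[ℝ] ℝ :=
    (Matrix.toBilin' M).compl₁₂ LD LD
  have hB : ∀ v w, B v w = Matrix.toBilin' M (LD v) (LD w) := fun v w => rfl
  let τ : (Euc (d + 1) × ℝ) →ₗ[ℝ] ℝ := ∑ i, (LinearMap.proj i).comp LD
  have hτ : ∀ v, τ v = ∑ i, LD v i := fun v => by simp [τ]
  have hMsymm : ∀ i j, M i j = M j i := by
    intro i j
    simp only [hMdef, Matrix.add_apply, Matrix.smul_apply, smul_eq_mul, fM, hM, gM]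
    rw [abs_sub_comm (a i) (a j)]
    by_cases hij : i = j
    · subst hij; rfl
    · have hji : ¬ j = i := fun h => hij h.symm
      by_cases haij : a i = a j
      · have haji : a j = a i := haij.symm
        simp only [hij, hji, haij, if_true, if_false]
        ring
      · have haji : ¬ a j = a i := fun h => haij h.symm
        simp only [hij, hji, haij, haji, if_false]
        ring
  have hslack : ∀ x ∈ convexHull ℝ (S : Set (Euc (d + 1))), ∀ i, 0 ≤ slack l b (x, 1) i := by
    intro x hx i
    rw [hP] at hx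
    rw [slack_apply]
    have := hx i
    linarith
  have hLDnn : ∀ x ∈ convexHull ℝ (S : Set (Euc (d + 1))), ∀ i, 0 ≤ LD (x, 1) i := by
    intro x hx i
    rw [hLD]
    exact mul_nonneg (hD i).le (hslack x hx i)
  have hLDne : ∀ x : Euc (d + 1), LD (x, 1) ≠ 0 := by
    intro x h
    have := congrArg Prod.snd (hLD0 _ h)
    simp at this
  refine inscribe_of_form S hne B τ ?_ ?_ ?_ ?_
  · intro v w
    rw [hB, hB, Matrix.toBilin'_apply, Matrix.toBilin'_apply, Finset.sum_comm]
    refine Finset.sum_congr rfl fun i _ => Finset.sum_congr rfl fun j _ => ?_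
    rw [hMsymm i j]
    ring
  · intro w hw hw0
    rw [hB, ← qf_eq_toBilin]
    exact hdef _ (hLDcl w).1 (by rw [← hτ]; exact hw) (fun h => hw0 (hLD0 w h))
  · intro x hx
    rw [hτ]
    obtain ⟨i, hi⟩ := Function.ne_iff.mp (hLDne x)
    refine Finset.sum_pos' (fun i _ => hLDnn x hx i) ⟨i, Finset.mem_univ i, ?_⟩
    exact lt_of_le_of_ne (hLDnn x hx i) (Ne.symm hi)
  · intro x hx
    rw [hB, ← qf_eq_toBilin]
    refine isotropic σ a _ hσ (hLDcl _) (hLDnn x hx.1) (hLDne x) ?_ ε δ
    intro m' hm' hsupp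
    -- `m'` comes from a vector `(u, t)`
    obtain ⟨⟨u, t⟩, hut⟩ : (fun i => m' i / D i) ∈ LinearMap.range (slack l b) := by
      rw [← hcl]
      have : (fun i => D i * (m' i / D i)) = m' := by
        ext i
        have := (hD i).ne'
        field_simp
      rw [this]
      exact hm'
    have hm'eq : m' = LD (u, t) := by
      ext i
      rw [hLD, hut]
      have := (hD i).ne'
      field_simp
    let v : Euc (d + 1) := u - t • x
    have hlv : ∀ i, slack l b (x, 1) i = 0 → l i v = 0 := by
      intro i hi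
      have h1 : LD (x, 1) i = 0 := by rw [hLD, hi, mul_zero]
      have h2 := hsupp i h1
      rw [hm'eq, hLD] at h2
      have h3 := (mul_eq_zero.mp h2).resolve_left (hD i).ne'
      rw [slack_apply] at hi h3
      simp only [v, map_sub, map_smul, smul_eq_mul]
      have h4 : l i x = b i := by linarith
      rw [h4]
      linarith
    have hev : ∀ᶠ s in nhdsWithin (0 : ℝ) (Set.Ioi 0),
        ∀ i, s * |l i v| ≤ slack l b (x, 1) i := by
      rw [Filter.eventually_all]
      intro i
      rcases (hslack x hx.1 i).eq_or_lt with h0 | h0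
      · rw [hlv i h0.symm, ← h0]
        simp
      · have hcont : Filter.Tendsto (fun s : ℝ => s * |l i v|) (nhdsWithin 0 (Set.Ioi 0))
            (nhds (0 * |l i v|)) :=
          (Filter.Tendsto.mul_const _ (Filter.tendsto_id)).mono_left nhdsWithin_le_nhds
        rw [zero_mul] at hcont
        exact (hcont.eventually (gt_mem_nhds h0)).mono fun s hs => le_of_lt hs
    obtain ⟨s, hs, hs0⟩ := (hev.and self_mem_nhdsWithin).exists
    have hs0' : 0 < s := hs0
    have hplus : x + s • v ∈ convexHull ℝ (S : Set (Euc (d + 1))) := by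
      rw [hP]
      intro i
      have h1 := hs i
      rw [slack_apply] at h1
      have h2 := le_abs_self (l i v)
      rw [map_add, map_smul, smul_eq_mul]
      nlinarith
    have hminus : x - s • v ∈ convexHull ℝ (S : Set (Euc (d + 1))) := by
      rw [hP]
      intro i
      have h1 := hs i
      rw [slack_apply] at h1
      have h2 := neg_abs_le (l i v)
      rw [map_sub, map_smul, smul_eq_mul]
      nlinarith
    have hmid : x ∈ openSegment ℝ (x + s • v) (x - s • v) := by
      refine ⟨1 / 2, 1 / 2, by norm_num, by norm_num, by norm_num, ?_⟩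
      module
    have hext := (mem_extremePoints.mp hx).2 _ hplus _ hminus hmid
    have hv0 : v = 0 := by
      have h1 : s • v = 0 := by
        have := hext.1
        rwa [add_eq_left] at this
      exact (smul_eq_zero.mp h1).resolve_left hs0'.ne'
    refine ⟨t, ?_⟩
    rw [hm'eq, ← map_smul]
    congr 1
    have hu : u = t • x := by
      have : u - t • x = 0 := hv0
      exact sub_eq_zero.mp this
    rw [hu]
    simp

end Pool.Agent.Lib.MP_d56329_co
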