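import Mathlib

/-!
# Projective maps and convex sets

A linear automorphism `L` of `E × ℝ` induces a projective map `pr L` of `E`, admissible on a set
`P` when `0 < ht L x` for all `x ∈ P`.  We show that admissible projective maps preserve convex
hulls, extreme points and exposed faces.
-/

set_option autoImplicit false

open Set

namespace Pool.Agent.Lib.MP_d56329_co

variable {E : Type*} [NormedAddCommGroup E] [NormedSpace ℝ E]

/-- The height of `x` under the projective map. -/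
def ht (L : (E × ℝ) ≃ₗ[ℝ] (E × ℝ)) (x : E) : ℝ := (L (x, 1)).2

/-- The projective map induced by `L`. -/
noncomputable def pr (L : (E × ℝ) ≃ₗ[ℝ] (E × ℝ)) (x : E) : E := (ht L x)⁻¹ • (L (x, 1)).1

theorem pr_spec (L : (E × ℝ) ≃ₗ[ℝ] (E × ℝ)) {x : E} (hx : ht L x ≠ 0) :
    L (x, 1) = ht L x • (pr L x, (1 : ℝ)) := by
  ext
  · simp [pr, smul_smul, mul_inv_cancel₀ hx]
  · simp [ht]

theorem symm_pr (L : (E × ℝ) ≃ₗ[ℝ] (E × ℝ)) {x : E} (hx : ht L x ≠ 0) :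
    L.symm (pr L x, 1) = (ht L x)⁻¹ • (x, (1 : ℝ)) := by
  rw [LinearEquiv.symm_apply_eq, map_smul, pr_spec L hx, smul_smul, inv_mul_cancel₀ hx, one_smul]

theorem ht_symm_pr (L : (E × ℝ) ≃ₗ[ℝ] (E × ℝ)) {x : E} (hx : ht L x ≠ 0) :
    ht L.symm (pr L x) = (ht L x)⁻¹ := by
  unfold ht at *
  have := symm_pr L hx
  unfold ht at this
  rw [this]
  simp

theorem pr_symm_pr (L : (E × ℝ) ≃ₗ[ℝ] (E × ℝ)) {x : E} (hx : ht L x ≠ 0) :
    pr L.symm (pr L x) = x := by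
  rw [pr, ht_symm_pr L hx, symm_pr L hx]
  simp [smul_smul, mul_inv_cancel₀ hx]

theorem ht_symm_pr_pos (L : (E × ℝ) ≃ₗ[ℝ] (E × ℝ)) {x : E} (hx : 0 < ht L x) :
    0 < ht L.symm (pr L x) := by
  rw [ht_symm_pr L hx.ne']
  positivity

theorem ht_combo (L : (E × ℝ) ≃ₗ[ℝ] (E × ℝ)) (a b : E) (s t : ℝ) (hst : s + t = 1) :
    ht L (s • a + t • b) = s * ht L a + t * ht L b := by
  have h : ((s • a + t • b, (1 : ℝ)) : E × ℝ) = s • (a, (1 : ℝ)) + t • (b, (1 : ℝ)) := by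
    ext <;> simp [hst]
  unfold ht
  rw [h, map_add, map_smul, map_smul]
  simp

theorem pr_combo (L : (E × ℝ) ≃ₗ[ℝ] (E × ℝ)) (a b : E) (s t : ℝ) (hst : s + t = 1)
    (ha : ht L a ≠ 0) (hb : ht L b ≠ 0) :
    pr L (s • a + t • b) = (s * ht L a / ht L (s • a + t • b)) • pr L a +
      (t * ht L b / ht L (s • a + t • b)) • pr L b := by
  have h : ((s • a + t • b, (1 : ℝ)) : E × ℝ) = s • (a, (1 : ℝ)) + t • (b, (1 : ℝ)) := by
    ext <;> simp [hst]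
  have h1 : (L (s • a + t • b, 1)).1 = (s * ht L a) • pr L a + (t * ht L b) • pr L b := by
    rw [h, map_add, map_smul, map_smul, pr_spec L ha, pr_spec L hb]
    simp [smul_smul]
  rw [pr, h1, smul_add, smul_smul, smul_smul, div_eq_inv_mul, div_eq_inv_mul]

theorem openSegment_pr (L : (E × ℝ) ≃ₗ[ℝ] (E × ℝ)) {a b x : E} (ha : 0 < ht L a)
    (hb : 0 < ht L b) (hx : x ∈ openSegment ℝ a b) :
    0 < ht L x ∧ pr L x ∈ openSegment ℝ (pr L a) (pr L b) := by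
  obtain ⟨s, t, hs, ht', hst, rfl⟩ := hx
  have hc := ht_combo L a b s t hst
  have hpos : 0 < ht L (s • a + t • b) := by rw [hc]; positivity
  refine ⟨hpos, _, _, ?_, ?_, ?_, (pr_combo L a b s t hst ha.ne' hb.ne').symm⟩
  · positivity
  · positivity
  · rw [← add_div, ← hc, div_self hpos.ne']

theorem segment_pr (L : (E × ℝ) ≃ₗ[ℝ] (E × ℝ)) {a b x : E} (ha : 0 < ht L a)
    (hb : 0 < ht L b) (hx : x ∈ segment ℝ a b) :
    0 < ht L x ∧ pr L x ∈ segment ℝ (pr L a) (pr L b) := by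
  obtain ⟨s, t, hs, ht', hst, rfl⟩ := hx
  have hc := ht_combo L a b s t hst
  have hpos : 0 < ht L (s • a + t • b) := by
    rw [hc]
    rcases hs.eq_or_lt with h0 | h0
    · subst h0
      have : t = 1 := by linarith
      subst this
      simpa using hb
    · positivity
  refine ⟨hpos, _, _, ?_, ?_, ?_, (pr_combo L a b s t hst ha.ne' hb.ne').symm⟩
  · positivity
  · positivity
  · rw [← add_div, ← hc, div_self hpos.ne']

theorem convex_aux (L : (E × ℝ) ≃ₗ[ℝ] (E × ℝ)) {Q : Set E} (hQ : Convex ℝ Q) :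
    Convex ℝ {x : E | 0 < ht L x ∧ pr L x ∈ Q} := by
  rw [convex_iff_segment_subset]
  rintro a ⟨ha, ha'⟩ b ⟨hb, hb'⟩ x hx
  obtain ⟨h1, h2⟩ := segment_pr L ha hb hx
  exact ⟨h1, hQ.segment_subset ha' hb' h2⟩

theorem convexHull_aux (L : (E × ℝ) ≃ₗ[ℝ] (E × ℝ)) {A : Set E} (hA : ∀ x ∈ A, 0 < ht L x) :
    convexHull ℝ A ⊆ {x : E | 0 < ht L x ∧ pr L x ∈ convexHull ℝ (pr L '' A)} := by
  refine convexHull_min (fun x hx => ⟨hA x hx, ?_⟩) (convex_aux L (convex_convexHull ℝ _))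
  exact subset_convexHull ℝ _ (mem_image_of_mem _ hx)

theorem image_convexHull (L : (E × ℝ) ≃ₗ[ℝ] (E × ℝ)) {A : Set E} (hA : ∀ x ∈ A, 0 < ht L x) :
    pr L '' convexHull ℝ A = convexHull ℝ (pr L '' A) := by
  apply Subset.antisymm
  · rintro _ ⟨x, hx, rfl⟩
    exact (convexHull_aux L hA hx).2
  · intro y hy
    have hA' : ∀ y ∈ pr L '' A, 0 < ht L.symm y := by
      rintro _ ⟨x, hx, rfl⟩
      exact ht_symm_pr_pos L (hA x hx)
    obtain ⟨h1, h2⟩ := convexHull_aux L.symm hA' hy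
    refine ⟨pr L.symm y, ?_, ?_⟩
    · have : pr L.symm '' (pr L '' A) = A := by
        ext x
        constructor
        · rintro ⟨_, ⟨x', hx', rfl⟩, rfl⟩
          rw [pr_symm_pr L (hA x' hx').ne']
          exact hx'
        · intro hx
          exact ⟨pr L x, ⟨x, hx, rfl⟩, pr_symm_pr L (hA x hx).ne'⟩
      rwa [this] at h2
    · have := pr_symm_pr L.symm h1.ne'
      simpa using this

/-- The image of an extreme point is an extreme point. -/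
theorem extreme_pr (L : (E × ℝ) ≃ₗ[ℝ] (E × ℝ)) {P : Set E} (hP : ∀ x ∈ P, 0 < ht L x) {x : E}
    (hx : x ∈ P.extremePoints ℝ) : pr L x ∈ (pr L '' P).extremePoints ℝ := by
  rw [mem_extremePoints] at hx ⊢
  refine ⟨mem_image_of_mem _ hx.1, ?_⟩
  rintro _ ⟨a, ha, rfl⟩ _ ⟨b, hb, rfl⟩ hab
  have h1 := openSegment_pr L.symm (ht_symm_pr_pos L (hP a ha)) (ht_symm_pr_pos L (hP b hb)) hab
  rw [pr_symm_pr L (hP a ha).ne', pr_symm_pr L (hP b hb).ne', pr_symm_pr L (hP x hx.1).ne'] at h1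
  obtain ⟨h2, h3⟩ := hx.2 a ha b hb h1.2
  rw [h2, h3]
  exact ⟨rfl, rfl⟩

theorem image_image (L : (E × ℝ) ≃ₗ[ℝ] (E × ℝ)) {P : Set E} (hP : ∀ x ∈ P, 0 < ht L x) :
    pr L.symm '' (pr L '' P) = P := by
  ext x
  constructor
  · rintro ⟨_, ⟨x', hx', rfl⟩, rfl⟩
    rw [pr_symm_pr L (hP x' hx').ne']
    exact hx'
  · intro hx
    exact ⟨pr L x, ⟨x, hx, rfl⟩, pr_symm_pr L (hP x hx).ne'⟩

theorem ht_symm_pos_of_mem (L : (E × ℝ) ≃ₗ[ℝ] (E × ℝ)) {P : Set E} (hP : ∀ x ∈ P, 0 < ht L x) :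
    ∀ y ∈ pr L '' P, 0 < ht L.symm y := by
  rintro _ ⟨x, hx, rfl⟩
  exact ht_symm_pr_pos L (hP x hx)

theorem image_extremePoints_pr (L : (E × ℝ) ≃ₗ[ℝ] (E × ℝ)) {P : Set E}
    (hP : ∀ x ∈ P, 0 < ht L x) :
    pr L '' (P.extremePoints ℝ) = (pr L '' P).extremePoints ℝ := by
  apply Subset.antisymm
  · rintro _ ⟨x, hx, rfl⟩
    exact extreme_pr L hP hx
  · intro y hy
    have h1 := extreme_pr L.symm (ht_symm_pos_of_mem L hP) hy
    rw [image_image L hP] at h1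
    refine ⟨_, h1, ?_⟩
    have := pr_symm_pr L.symm (ht_symm_pos_of_mem L hP y hy.1).ne'
    simpa using this

theorem injOn_pr (L : (E × ℝ) ≃ₗ[ℝ] (E × ℝ)) {P : Set E} (hP : ∀ x ∈ P, 0 < ht L x) :
    InjOn (pr L) P := by
  intro a ha b hb hab
  rw [← pr_symm_pr L (hP a ha).ne', ← pr_symm_pr L (hP b hb).ne', hab]

/-- The image of an exposed face is an exposed face. -/
theorem exposed_pr [FiniteDimensional ℝ E] (L : (E × ℝ) ≃ₗ[ℝ] (E × ℝ)) {P F : Set E}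
    (hP : ∀ x ∈ P, 0 < ht L x) (hF : IsExposed ℝ P F) :
    IsExposed ℝ (pr L '' P) (pr L '' F) := by
  rintro ⟨_, ⟨x₀, hx₀, rfl⟩⟩
  obtain ⟨l, hl⟩ := hF ⟨x₀, hx₀⟩
  have hFP : F ⊆ P := hF.subset
  have hx₀' : ∀ y ∈ P, l y ≤ l x₀ := by
    have : x₀ ∈ {x ∈ P | ∀ y ∈ P, l y ≤ l x} := hl ▸ hx₀
    exact this.2
  -- the functional on `E × ℝ`
  let lam : (E × ℝ) →ₗ[ℝ] ℝ :=
    (l x₀) • LinearMap.snd ℝ E ℝ - (l : E →ₗ[ℝ] ℝ).comp (LinearMap.fst ℝ E ℝ)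
  have hlam : ∀ x : E, lam (x, 1) = l x₀ - l x := by
    intro x
    simp [lam]
  let lam' : (E × ℝ) →ₗ[ℝ] ℝ := lam.comp (L.symm : (E × ℝ) →ₗ[ℝ] (E × ℝ))
  have hlam' : ∀ x ∈ P, lam' (pr L x, 1) = (ht L x)⁻¹ * (l x₀ - l x) := by
    intro x hx
    show lam (L.symm (pr L x, 1)) = _
    rw [symm_pr L (hP x hx).ne', map_smul, hlam, smul_eq_mul]
  let m : E →ₗ[ℝ] ℝ := -(lam'.comp (LinearMap.inl ℝ E ℝ))
  have hm : ∀ y : E, m y = lam' (0, 1) - lam' (y, 1) := by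
    intro y
    have : ((y, (1 : ℝ)) : E × ℝ) = (y, 0) + (0, 1) := by ext <;> simp
    rw [this, map_add]
    simp [m]
  refine ⟨LinearMap.toContinuousLinearMap m, ?_⟩
  ext y
  simp only [LinearMap.coe_toContinuousLinearMap', mem_setOf_eq]
  constructor
  · rintro ⟨x, hx, rfl⟩
    refine ⟨mem_image_of_mem _ (hFP hx), ?_⟩
    rintro _ ⟨z, hz, rfl⟩
    have hx' : x ∈ {x ∈ P | ∀ y ∈ P, l y ≤ l x} := hl ▸ hx
    rw [hm, hm, hlam' x (hFP hx), hlam' z hz]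
    have h1 : l x₀ - l x = 0 := by
      have := hx'.2 x₀ (hFP hx₀)
      have := hx₀' x (hFP hx)
      linarith
    have h2 : 0 ≤ (ht L z)⁻¹ * (l x₀ - l z) := by
      have := hx₀' z hz
      have := hP z hz
      have : 0 ≤ l x₀ - l z := by linarith
      positivity
    rw [h1]
    linarith
  · rintro ⟨⟨x, hx, rfl⟩, h⟩
    refine mem_image_of_mem _ ?_
    have h1 := h (pr L x₀) (mem_image_of_mem _ (hFP hx₀))
    rw [hm, hm, hlam' x hx, hlam' x₀ (hFP hx₀)] at h1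
    have h2 : (ht L x)⁻¹ * (l x₀ - l x) ≤ 0 := by
      have : (ht L x₀)⁻¹ * (l x₀ - l x₀) = 0 := by simp
      linarith
    have h3 : 0 < (ht L x)⁻¹ := by
      have := hP x hx
      positivity
    have h4 : l x₀ - l x ≤ 0 := by
      by_contra hc
      push Not at hc
      have := mul_pos h3 hc
      linarith
    rw [hl]
    exact ⟨hx, fun y hy => by linarith [hx₀' y hy]⟩

theorem exposed_iff [FiniteDimensional ℝ E] (L : (E × ℝ) ≃ₗ[ℝ] (E × ℝ)) {P F : Set E}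
    (hP : ∀ x ∈ P, 0 < ht L x) (hF : F ⊆ P) :
    IsExposed ℝ P F ↔ IsExposed ℝ (pr L '' P) (pr L '' F) := by
  refine ⟨exposed_pr L hP, fun h => ?_⟩
  have := exposed_pr L.symm (ht_symm_pos_of_mem L hP) h
  rwa [image_image L hP, image_image L (fun x hx => hP x (hF hx))] at this

end Pool.Agent.Lib.MP_d56329_co
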