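import Pool.Agent.Lib.MP_d56329_co.Main

/-!
# A projective map that inscribes a polytope with at most `d + 3` facets in the unit sphere
-/

set_option autoImplicit false

open Set Module

namespace Pool.Agent.Lib.MP_d56329_co

/-- The Lorentz form of a `d`-polytope with at most `d + 3` facets. -/
theorem exists_form {d : ℕ} (S : Finset (Euc (d + 1)))
    (hint : (interior (convexHull ℝ (S : Set (Euc (d + 1))))).Nonempty)
    (hfac : (facets (S : Set (Euc (d + 1)))).ncard ≤ (d + 1) + 3) :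
    ∃ (B : (Euc (d + 1) × ℝ) →ₗ[ℝ] (Euc (d + 1) × ℝ) →ₗ[ℝ] ℝ)
      (τ : (Euc (d + 1) × ℝ) →ₗ[ℝ] ℝ),
      (∀ v w, B v w = B w v) ∧ (∀ w, τ w = 0 → w ≠ 0 → 0 < B w w) ∧
      (∀ x ∈ convexHull ℝ (S : Set (Euc (d + 1))), 0 < τ (x, 1)) ∧
      (∀ x ∈ (convexHull ℝ (S : Set (Euc (d + 1)))).extremePoints ℝ, B (x, 1) (x, 1) = 0) := by
  classical
  obtain ⟨ι, _, l, b, hcard, hP⟩ := exists_ineqs S hint hfac
  have hne : S.Nonempty := by
    have h1 : (convexHull ℝ (S : Set (Euc (d + 1)))).Nonempty := hint.mono interior_subset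
    rw [convexHull_nonempty_iff] at h1
    exact h1
  have hbd : Bornology.IsBounded {x : Euc (d + 1) | ∀ i, l i x ≤ b i} := by
    rw [← hP]
    exact (S.finite_toSet.isCompact_convexHull (𝕜 := ℝ)).isBounded
  have hinj : Function.Injective (slack l b) := slack_injective l b hbd (hP ▸ hint)
  obtain ⟨σ, a, D, hσ, hD, hcl⟩ := exists_gale (slack l b) hinj (by
    rw [Module.finrank_prod]
    simp only [finrank_euclideanSpace_fin, finrank_self]
    omega)
  obtain ⟨ε, δ, hdef⟩ := definite σ a hσ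
  set M : Matrix ι ι ℝ := fM σ + ε • (hM σ a + δ • gM σ a) with hMdef
  -- scaled slack map
  let LD : (Euc (d + 1) × ℝ) →ₗ[ℝ] (ι → ℝ) :=
    LinearMap.pi fun i => D i • (LinearMap.proj i).comp (slack l b)
  have hLD : ∀ v i, LD v i = D i * slack l b v i := fun v i => by simp [LD]
  have hLDcl : ∀ v, Closed σ a (LD v) := by
    intro v
    have : LD v = fun i => D i * slack l b v i := by
      ext i; exact hLD v i
    rw [this, hcl]
    exact LinearMap.mem_range_self _ v
  have hLD0 : ∀ v, LD v = 0 → v = 0 := by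
    intro v hv
    apply hinj
    rw [map_zero]
    ext i
    have h1 := congr_fun hv i
    rw [hLD] at h1
    exact (mul_eq_zero.mp h1).resolve_left (hD i).ne'
  let B : (Euc (d + 1) × ℝ) →ₗ[ℝ] (Euc (d + 1) × ℝ) →ₗ[ℝ] ℝ :=
    (Matrix.toBilin' M).compl₁₂ LD LD
  have hB : ∀ v w, B v w = Matrix.toBilin' M (LD v) (LD w) := fun v w => rfl
  let τ : (Euc (d + 1) × ℝ) →ₗ[ℝ] ℝ := ∑ i, (LinearMap.proj i).comp LD
  have hτ : ∀ v, τ v = ∑ i, LD v i := fun v => by simp [τ]
  have hMsymm : ∀ i j, M i j = M j i := by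
    intro i j
    simp only [hMdef, Matrix.add_apply, Matrix.smul_apply, smul_eq_mul, fM, hM, gM]
    rw [abs_sub_comm (a i) (a j)]
    by_cases hij : i = j
    · subst hij; rfl
    · have hji : ¬ j = i := fun h => hij h.symm
      by_cases haij : a i = a j
      · have haji : a j = a i := haij.symm
        simp only [hij, hji, haij, if_true, if_false]
        ring
      · have haji : ¬ a j = a i := fun h => haij h.symm
        simp only [hij, hji, haij, haji, if_false]
        ring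
  have hslack : ∀ x ∈ convexHull ℝ (S : Set (Euc (d + 1))), ∀ i, 0 ≤ slack l b (x, 1) i := by
    intro x hx i
    rw [hP] at hx
    rw [slack_apply]
    have := hx i
    linarith
  have hLDnn : ∀ x ∈ convexHull ℝ (S : Set (Euc (d + 1))), ∀ i, 0 ≤ LD (x, 1) i := by
    intro x hx i
    rw [hLD]
    exact mul_nonneg (hD i).le (hslack x hx i)
  have hLDne : ∀ x : Euc (d + 1), LD (x, 1) ≠ 0 := by
    intro x h
    have := congrArg Prod.snd (hLD0 _ h)
    simp at this
  refine ⟨B, τ, ?_, ?_, ?_, ?_⟩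
  · intro v w
    rw [hB, hB, Matrix.toBilin'_apply, Matrix.toBilin'_apply, Finset.sum_comm]
    refine Finset.sum_congr rfl fun i _ => Finset.sum_congr rfl fun j _ => ?_
    rw [hMsymm i j]
    ring
  · intro w hw hw0
    rw [hB, ← qf_eq_toBilin]
    exact hdef _ (hLDcl w).1 (by rw [← hτ]; exact hw) (fun h => hw0 (hLD0 w h))
  · intro x hx
    rw [hτ]
    obtain ⟨i, hi⟩ := Function.ne_iff.mp (hLDne x)
    refine Finset.sum_pos' (fun i _ => hLDnn x hx i) ⟨i, Finset.mem_univ i, ?_⟩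
    exact lt_of_le_of_ne (hLDnn x hx i) (Ne.symm hi)
  · intro x hx
    rw [hB, ← qf_eq_toBilin]
    refine isotropic σ a _ hσ (hLDcl _) (hLDnn x hx.1) (hLDne x) ?_ ε δ
    intro m' hm' hsupp
    -- `m'` comes from a vector `(u, t)`
    obtain ⟨⟨u, t⟩, hut⟩ : (fun i => m' i / D i) ∈ LinearMap.range (slack l b) := by
      rw [← hcl]
      have : (fun i => D i * (m' i / D i)) = m' := by
        ext i
        have := (hD i).ne'
        field_simp
      rw [this]
      exact hm'
    have hm'eq : m' = LD (u, t) := by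
      ext i
      rw [hLD, hut]
      have := (hD i).ne'
      field_simp
    let v : Euc (d + 1) := u - t • x
    have hlv : ∀ i, slack l b (x, 1) i = 0 → l i v = 0 := by
      intro i hi
      have h1 : LD (x, 1) i = 0 := by rw [hLD, hi, mul_zero]
      have h2 := hsupp i h1
      rw [hm'eq, hLD] at h2
      have h3 := (mul_eq_zero.mp h2).resolve_left (hD i).ne'
      rw [slack_apply] at hi h3
      simp only [v, map_sub, map_smul, smul_eq_mul]
      have h4 : l i x = b i := by linarith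
      rw [h4]
      linarith
    have hev : ∀ᶠ s in nhdsWithin (0 : ℝ) (Set.Ioi 0),
        ∀ i, s * |l i v| ≤ slack l b (x, 1) i := by
      rw [Filter.eventually_all]
      intro i
      rcases (hslack x hx.1 i).eq_or_lt with h0 | h0
      · rw [hlv i h0.symm, ← h0]
        simp
      · have hcont : Filter.Tendsto (fun s : ℝ => s * |l i v|) (nhdsWithin 0 (Set.Ioi 0))
            (nhds (0 * |l i v|)) :=
          (Filter.Tendsto.mul_const _ (Filter.tendsto_id)).mono_left nhdsWithin_le_nhds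
        rw [zero_mul] at hcont
        exact (hcont.eventually (gt_mem_nhds h0)).mono fun s hs => le_of_lt hs
    obtain ⟨s, hs, hs0⟩ := (hev.and self_mem_nhdsWithin).exists
    have hs0' : 0 < s := hs0
    have hplus : x + s • v ∈ convexHull ℝ (S : Set (Euc (d + 1))) := by
      rw [hP]
      intro i
      have h1 := hs i
      rw [slack_apply] at h1
      have h2 := le_abs_self (l i v)
      rw [map_add, map_smul, smul_eq_mul]
      nlinarith
    have hminus : x - s • v ∈ convexHull ℝ (S : Set (Euc (d + 1))) := by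
      rw [hP]
      intro i
      have h1 := hs i
      rw [slack_apply] at h1
      have h2 := neg_abs_le (l i v)
      rw [map_sub, map_smul, smul_eq_mul]
      nlinarith
    have hmid : x ∈ openSegment ℝ (x + s • v) (x - s • v) := by
      refine ⟨1 / 2, 1 / 2, by norm_num, by norm_num, by norm_num, ?_⟩
      module
    have hext := (mem_extremePoints.mp hx).2 _ hplus _ hminus hmid
    have hv0 : v = 0 := by
      have h1 : s • v = 0 := by
        have := hext.1
        rwa [add_eq_left] at this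
      exact (smul_eq_zero.mp h1).resolve_left hs0'.ne'
    refine ⟨t, ?_⟩
    rw [hm'eq, ← map_smul]
    congr 1
    have hu : u = t • x := by
      have : u - t • x = 0 := hv0
      exact sub_eq_zero.mp this
    rw [hu]
    simp


/-- The projective map given by a Lorentz form. -/
theorem exists_projective {d : ℕ} (S : Finset (Euc d)) (hne : S.Nonempty)
    (B : (Euc d × ℝ) →ₗ[ℝ] (Euc d × ℝ) →ₗ[ℝ] ℝ)
    (τ : (Euc d × ℝ) →ₗ[ℝ] ℝ)
    (hsymm : ∀ v w, B v w = B w v)
    (hpos : ∀ w, τ w = 0 → w ≠ 0 → 0 < B w w)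
    (hτ : ∀ x ∈ convexHull ℝ (S : Set (Euc d)), 0 < τ (x, 1))
    (hiso : ∀ x ∈ (convexHull ℝ (S : Set (Euc d))).extremePoints ℝ,
      B (x, 1) (x, 1) = 0) :
    ∃ (L : (Euc d × ℝ) ≃ₗ[ℝ] (Euc d × ℝ)) (s : ℝ),
      (∀ x ∈ convexHull ℝ (S : Set (Euc d)), 0 < ht L x) ∧
      ∀ x ∈ (convexHull ℝ (S : Set (Euc d))).extremePoints ℝ, ‖pr L x‖ ^ 2 = s := by
  classical
  set P : Set (Euc d) := convexHull ℝ (S : Set (Euc d)) with hP
  -- the hyperplane `ker τ`
  obtain ⟨x₀, hx₀⟩ : P.Nonempty := by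
    rw [hP, convexHull_nonempty_iff]
    exact hne
  have hτ0 : τ ≠ 0 := by
    intro h
    have := hτ x₀ hx₀
    rw [h] at this
    simp at this
  have hrank : finrank ℝ (LinearMap.ker τ) = d := by
    have h1 := LinearMap.finrank_range_add_finrank_ker τ
    have h2 : finrank ℝ (LinearMap.range τ) = 1 := by
      rw [LinearMap.range_eq_top.mpr (LinearMap.surjective_of_ne_zero hτ0)]
      simp
    have h3 : finrank ℝ (Euc d × ℝ) = d + 1 := by
      rw [Module.finrank_prod]
      simp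
    omega
  obtain ⟨Φ, hΦ'⟩ := exists_euclidean (W := LinearMap.ker τ)
    (B.domRestrict₁₂ (LinearMap.ker τ) (LinearMap.ker τ))
    (fun v w => hsymm v w)
    (fun w hw => hpos w.1 w.2 (fun h => hw (Subtype.ext h))) d hrank
  have hΦ : ∀ v w : LinearMap.ker τ, inner ℝ (Φ v) (Φ w) = B v w := hΦ'
  -- the base point
  obtain ⟨v, hv⟩ : ∃ v, τ v = 1 := LinearMap.surjective_of_ne_zero hτ0 1
  obtain ⟨u, hu⟩ : ∃ u : LinearMap.ker τ, ∀ w : LinearMap.ker τ, B u w = B v w := by
    let f : Euc d →ₗ[ℝ] ℝ := ((B v).domRestrict (LinearMap.ker τ)).comp (Φ.symm : Euc d →ₗ[ℝ] _)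
    refine ⟨Φ.symm ((InnerProductSpace.toDual ℝ (Euc d)).symm
      (LinearMap.toContinuousLinearMap f)), fun w => ?_⟩
    rw [← hΦ, LinearEquiv.apply_symm_apply, InnerProductSpace.toDual_symm_apply]
    simp [f]
  let w₀ : Euc d × ℝ := v - u
  have hw₀ : τ w₀ = 1 := by
    have : τ (u : Euc d × ℝ) = 0 := u.2
    simp [w₀, hv, this]
  have hw₀' : ∀ w, τ w = 0 → B w₀ w = 0 := by
    intro w hw
    have := hu ⟨w, hw⟩
    simp only [w₀, map_sub, LinearMap.sub_apply]
    simp only at this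
    rw [this, sub_self]
  -- the projection onto `ker τ`
  let p : (Euc d × ℝ) →ₗ[ℝ] LinearMap.ker τ :=
    (LinearMap.id - τ.smulRight w₀).codRestrict (LinearMap.ker τ) (by
      intro w
      simp [hw₀])
  have hp : ∀ w, ((p w : LinearMap.ker τ) : Euc d × ℝ) = w - τ w • w₀ := fun w => rfl
  let Lm : (Euc d × ℝ) →ₗ[ℝ] (Euc d × ℝ) := ((Φ : _ →ₗ[ℝ] Euc d).comp p).prod τ
  have hLm : Function.Injective Lm := by
    rw [← LinearMap.ker_eq_bot, LinearMap.ker_eq_bot']
    intro w hw
    have h1 : Φ (p w) = 0 := congrArg Prod.fst hw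
    have h2 : τ w = 0 := congrArg Prod.snd hw
    have h3 : p w = 0 := by simpa using h1
    have h4 := hp w
    rw [h3, h2] at h4
    simpa using h4.symm
  let L : (Euc d × ℝ) ≃ₗ[ℝ] (Euc d × ℝ) := LinearEquiv.ofInjectiveEndo Lm hLm
  have hL : ∀ w, L w = (Φ (p w), τ w) := fun w => rfl
  have hht : ∀ x, ht L x = τ (x, 1) := fun x => rfl
  have hPpos : ∀ x ∈ P, 0 < ht L x := fun x hx => by rw [hht]; exact hτ x hx
  refine ⟨L, -(B w₀ w₀), hPpos, ?_⟩
  intro x hx
  have hxP : x ∈ P := hx.1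
  have h1 : ‖Φ (p (x, 1))‖ ^ 2 = -(τ (x, 1)) ^ 2 * B w₀ w₀ := by
    rw [← real_inner_self_eq_norm_sq, hΦ]
    have h2 : B (x, 1) (x, 1) = 0 := hiso x hx
    have h3 : ((x, (1 : ℝ)) : Euc d × ℝ) = (p (x, 1) : Euc d × ℝ) + τ (x, 1) • w₀ := by
      rw [hp]; simp
    have h4 : B w₀ (p (x, 1) : Euc d × ℝ) = 0 := hw₀' _ (p (x, 1)).2
    have h5 : B (p (x, 1) : Euc d × ℝ) w₀ = 0 := by rw [hsymm]; exact h4
    have h6 : B (x, 1) (x, 1) = B ((p (x, 1) : Euc d × ℝ) + τ (x, 1) • w₀)
        ((p (x, 1) : Euc d × ℝ) + τ (x, 1) • w₀) := by rw [← h3]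
    rw [h6] at h2
    simp only [map_add, map_smul, LinearMap.add_apply, LinearMap.smul_apply, smul_eq_mul,
      h4, h5] at h2
    linear_combination h2
  have h2 : 0 < τ (x, 1) := hτ x hxP
  have h3 : ‖pr L x‖ ^ 2 = -(B w₀ w₀) := by
    have : pr L x = (τ (x, 1))⁻¹ • Φ (p (x, 1)) := rfl
    rw [this, norm_smul, mul_pow, h1]
    simp only [norm_inv, Real.norm_eq_abs, inv_pow, sq_abs]
    field_simp
  exact h3

end Pool.Agent.Lib.MP_d56329_co
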