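import Pool.Agent.Lib.MP_d56329_co.Strong

/-!
# Inscribing in the unit sphere; faces and interior under projective maps
-/

set_option autoImplicit false

open Set Module

namespace Pool.Agent.Lib.MP_d56329_co

/-- A full-dimensional polytope in positive dimension has two extreme points. -/
theorem two_extreme {d : ℕ} (S : Finset (Euc (d + 1)))
    (hint : (interior (convexHull ℝ (S : Set (Euc (d + 1))))).Nonempty) :
    ∃ x ∈ (convexHull ℝ (S : Set (Euc (d + 1)))).extremePoints ℝ,
      ∃ y ∈ (convexHull ℝ (S : Set (Euc (d + 1)))).extremePoints ℝ, x ≠ y := by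
  by_contra hcon
  push Not at hcon
  have h1 : ((convexHull ℝ (S : Set (Euc (d + 1)))).extremePoints ℝ).Subsingleton :=
    fun x hx y hy => hcon x hx y hy
  have h2 := convexHull_extremePoints_eq (S := (S : Set (Euc (d + 1)))) S.finite_toSet
  rcases h1.eq_empty_or_singleton with h | ⟨x, h⟩
  · rw [h, convexHull_empty] at h2
    rw [← h2] at hint
    simp at hint
  · rw [h, convexHull_singleton] at h2
    rw [← h2, interior_singleton] at hint
    simp at hint

theorem exists_unit {d : ℕ} (S : Finset (Euc (d + 1)))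
    (hint : (interior (convexHull ℝ (S : Set (Euc (d + 1))))).Nonempty)
    (hfac : (facets (S : Set (Euc (d + 1)))).ncard ≤ (d + 1) + 3) :
    ∃ L : (Euc (d + 1) × ℝ) ≃ₗ[ℝ] (Euc (d + 1) × ℝ),
      (∀ x ∈ convexHull ℝ (S : Set (Euc (d + 1))), 0 < ht L x) ∧
      ∀ x ∈ (convexHull ℝ (S : Set (Euc (d + 1)))).extremePoints ℝ, ‖pr L x‖ = 1 := by
  obtain ⟨B, τ, hs, hp, hτ, hi⟩ := exists_form S hint hfac
  have hne : S.Nonempty := by
    have h1 : (convexHull ℝ (S : Set (Euc (d + 1)))).Nonempty := hint.mono interior_subset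
    rw [convexHull_nonempty_iff] at h1
    exact h1
  obtain ⟨L, s, hL, hLs⟩ := exists_projective S hne B τ hs hp hτ hi
  obtain ⟨x, hx, y, hy, hxy⟩ := two_extreme S hint
  have hs0 : 0 < s := by
    have h0 : 0 ≤ s := by rw [← hLs x hx]; positivity
    rcases h0.eq_or_lt with h | h
    · exfalso
      have e1 := hLs x hx
      have e2 := hLs y hy
      rw [← h] at e1 e2
      have e3 : pr L x = 0 := by
        rw [← norm_eq_zero]
        exact pow_eq_zero_iff (two_ne_zero) |>.mp e1
      have e4 : pr L y = 0 := by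
        rw [← norm_eq_zero]
        exact pow_eq_zero_iff (two_ne_zero) |>.mp e2
      exact hxy (injOn_pr L hL hx.1 hy.1 (e3.trans e4.symm))
    · exact h
  have hr : (√s)⁻¹ ≠ 0 := by
    have := Real.sqrt_pos.mpr hs0
    positivity
  let L' : (Euc (d + 1) × ℝ) ≃ₗ[ℝ] (Euc (d + 1) × ℝ) :=
    L.trans ((LinearEquiv.smulOfNeZero ℝ (Euc (d + 1)) (√s)⁻¹ hr).prodCongr
      (LinearEquiv.refl ℝ ℝ))
  have h2 : ∀ x, ht L' x = ht L x := fun x => rfl
  have h3 : ∀ x, pr L' x = (√s)⁻¹ • pr L x := by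
    intro x
    have : pr L' x = (ht L x)⁻¹ • ((√s)⁻¹ • (L (x, 1)).1) := rfl
    rw [this, smul_comm]
    rfl
  refine ⟨L', fun x hx => by rw [h2]; exact hL x hx, fun x hx => ?_⟩
  rw [h3, norm_smul, norm_inv, Real.norm_eq_abs, abs_of_nonneg (Real.sqrt_nonneg s)]
  have h4 : ‖pr L x‖ = √s := by
    rw [← hLs x hx, Real.sqrt_sq (norm_nonneg _)]
  rw [h4, inv_mul_cancel₀]
  exact (Real.sqrt_pos.mpr hs0).ne'

section faces

variable {E : Type*} [NormedAddCommGroup E] [NormedSpace ℝ E] [FiniteDimensional ℝ E]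

theorem continuous_ht (L : (E × ℝ) ≃ₗ[ℝ] (E × ℝ)) : Continuous (ht L) := by
  have h1 : Continuous (fun w : E × ℝ => L w) :=
    (L : (E × ℝ) →ₗ[ℝ] (E × ℝ)).continuous_of_finiteDimensional
  exact continuous_snd.comp (h1.comp (by fun_prop))

theorem continuousOn_pr (L : (E × ℝ) ≃ₗ[ℝ] (E × ℝ)) : ContinuousOn (pr L) {x | 0 < ht L x} := by
  have h1 : Continuous (fun w : E × ℝ => L w) :=
    (L : (E × ℝ) →ₗ[ℝ] (E × ℝ)).continuous_of_finiteDimensional
  have h2 : Continuous (fun x : E => (L (x, 1)).1) :=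
    continuous_fst.comp (h1.comp (by fun_prop))
  refine ContinuousOn.smul ?_ h2.continuousOn
  exact (continuous_ht L).continuousOn.inv₀ fun x hx => (ne_of_gt hx)

theorem interior_pr (L : (E × ℝ) ≃ₗ[ℝ] (E × ℝ)) {P : Set E} (hP : ∀ x ∈ P, 0 < ht L x)
    (hint : (interior P).Nonempty) : (interior (pr L '' P)).Nonempty := by
  obtain ⟨z, hz⟩ := hint
  have hzP : z ∈ P := interior_subset hz
  have hopen : IsOpen ({y | 0 < ht L.symm y} ∩ pr L.symm ⁻¹' interior P) := by
    refine (continuousOn_pr L.symm).isOpen_inter_preimage ?_ isOpen_interior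
    exact isOpen_lt continuous_const (continuous_ht L.symm)
  refine ⟨pr L z, ?_⟩
  rw [mem_interior]
  refine ⟨_, ?_, hopen, ?_⟩
  · rintro y ⟨hy1, hy2⟩
    refine ⟨pr L.symm y, interior_subset hy2, ?_⟩
    have := pr_symm_pr L.symm (ne_of_gt hy1)
    simpa using this
  · refine ⟨ht_symm_pr_pos L (hP z hzP), ?_⟩
    show pr L.symm (pr L z) ∈ interior P
    rw [pr_symm_pr L (hP z hzP).ne']
    exact hz

/-- The order isomorphism of face lattices induced by an admissible projective map. -/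
noncomputable def faceIso (L : (E × ℝ) ≃ₗ[ℝ] (E × ℝ)) {P : Set E} (hP : ∀ x ∈ P, 0 < ht L x) :
    {F : Set E // IsExposed ℝ P F} ≃o {F : Set E // IsExposed ℝ (pr L '' P) F} where
  toFun F := ⟨pr L '' F.1, exposed_pr L hP F.2⟩
  invFun G := ⟨pr L.symm '' G.1, by
    have := exposed_pr L.symm (ht_symm_pos_of_mem L hP) G.2
    rwa [image_image L hP] at this⟩
  left_inv F := by
    apply Subtype.ext
    exact image_image L (fun x hx => hP x (F.2.subset hx))
  right_inv G := by
    apply Subtype.ext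
    have := image_image L.symm (P := G.1)
      (fun y hy => ht_symm_pos_of_mem L hP y (G.2.subset hy))
    simpa using this
  map_rel_iff' {F G} := by
    show pr L '' F.1 ⊆ pr L '' G.1 ↔ F.1 ⊆ G.1
    exact (injOn_pr L hP).image_subset_image_iff F.2.subset G.2.subset

theorem faceIso_apply (L : (E × ℝ) ≃ₗ[ℝ] (E × ℝ)) {P : Set E} (hP : ∀ x ∈ P, 0 < ht L x)
    (F : {F : Set E // IsExposed ℝ P F}) : (faceIso L hP F).1 = pr L '' F.1 := rfl

end faces

end Pool.Agent.Lib.MP_d56329_co
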